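import Pool.Agent.Q235.TF.PolarC

/-!
Project TF: the Cayley transform of the complex structures tamed by a form.
-/

set_option autoImplicit false

open Set Filter Topology
open scoped Manifold ContDiff InnerProductSpace

noncomputable section

namespace Pool.Agent.Q235.TF

section

variable {V : Type} [NormedAddCommGroup V] [NormedSpace ℝ V]

/-- `A` is compatible with the form `s` -/
structure Compat (s : V [⋀^Fin 2]→L[ℝ] ℝ) (A : V →L[ℝ] V) : Prop where
  sq : ∀ v, A (A v) = -v
  pres : ∀ u v, s ![A u, A v] = s ![u, v]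
  pos : ∀ v, v ≠ 0 → 0 < s ![v, A v]

/-- `Z` anticommutes with `A` and is of norm less than one -/
structure InBall (s : V [⋀^Fin 2]→L[ℝ] ℝ) (A Z : V →L[ℝ] V) : Prop where
  anti : ∀ v, A (Z v) = -(Z (A v))
  lt : ∀ v, v ≠ 0 → s ![Z v, A (Z v)] < s ![v, A v]

/-- the Cayley transform -/
def cayZ (A J : V →L[ℝ] V) : V →L[ℝ] V := Ring.inverse (A + J) * (A - J)

/-- the inverse of the Cayley transform -/
def cayJ (A Z : V →L[ℝ] V) : V →L[ℝ] V := (1 + Z) * A * Ring.inverse (1 + Z)

theorem Compat.symm {s : V [⋀^Fin 2]→L[ℝ] ℝ} {A : V →L[ℝ] V} (h : Compat s A) (u v : V) :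
    bl s u (A v) = bl s v (A u) := by
  have h1 : bl s (A v) (A (A u)) = bl s v (A u) := h.pres v (A u)
  rw [h.sq, map_neg] at h1
  rw [← h1, bl_swap]

theorem Compat.diff {s : V [⋀^Fin 2]→L[ℝ] ℝ} {A : V →L[ℝ] V} (h : Compat s A) (u v : V) :
    bl s (u + v) (A (u - v)) = bl s u (A u) - bl s v (A v) := by
  rw [map_sub, map_sub, map_add, LinearMap.add_apply, LinearMap.add_apply, h.symm v u]
  ring

variable [FiniteDimensional ℝ V]

theorem isUnit_of_inj (T : V →L[ℝ] V) (h : ∀ v, T v = 0 → v = 0) : IsUnit T := by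
  have hinj : Function.Injective T.toLinearMap := by
    rw [injective_iff_map_eq_zero]
    exact h
  let E := LinearEquiv.ofInjectiveEndo T.toLinearMap hinj
  let S : V →L[ℝ] V := LinearMap.toContinuousLinearMap E.symm.toLinearMap
  refine ⟨⟨T, S, ?_, ?_⟩, rfl⟩
  · ext v
    exact E.apply_symm_apply v
  · ext v
    exact E.symm_apply_apply v

theorem ball_of {s : V [⋀^Fin 2]→L[ℝ] ℝ} {A J : V →L[ℝ] V} (hA : Compat s A)
    (hJ2 : ∀ v, J (J v) = -v) (hJ : ∀ v, v ≠ 0 → 0 < s ![v, J v]) :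
    IsUnit (A + J) ∧ InBall s A (cayZ A J) ∧ cayJ A (cayZ A J) = J := by
  have hU : IsUnit (A + J) := by
    refine isUnit_of_inj _ fun v hv => ?_
    by_contra h0
    have h1 : bl s v ((A + J) v) = 0 := by rw [hv, map_zero]
    have h2 : (A + J) v = A v + J v := rfl
    rw [h2, map_add] at h1
    have h3 : 0 < bl s v (A v) := hA.pos v h0
    have h4 : 0 < bl s v (J v) := hJ v h0
    linarith
  have hinj : ∀ u v, A u + J u = A v + J v → u = v := by
    intro u v h
    obtain ⟨W, hW⟩ := hU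
    have h1 : (W : V →L[ℝ] V) u = (W : V →L[ℝ] V) v := by
      rw [hW]
      exact h
    have h2 : ∀ z, (↑W⁻¹ : V →L[ℝ] V) ((W : V →L[ℝ] V) z) = z := fun z => by
      have h3 := congrArg (fun L : V →L[ℝ] V => L z) W.inv_mul
      exact h3
    rw [← h2 u, ← h2 v, h1]
  set Z := cayZ A J with hZ
  have E1 : ∀ v, A (Z v) + J (Z v) = A v - J v := by
    intro v
    have h1 : (A + J) * Z = A - J := by
      rw [hZ, cayZ, ← mul_assoc, Ring.mul_inverse_cancel _ hU, one_mul]
    exact congrArg (fun L : V →L[ℝ] V => L v) h1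
  have hanti : ∀ v, A (Z v) = -(Z (A v)) := by
    intro v
    refine hinj _ _ ?_
    have h1 := E1 v
    have h2 := E1 (A v)
    have h3 : A (Z v) = A v - J v - J (Z v) := by
      rw [← h1]
      abel
    have h4 : J (A (Z v)) = J (A v) + v + Z v := by
      rw [h3, map_sub, map_sub, hJ2, hJ2]
      abel
    rw [hA.sq, h4, map_neg, map_neg, ← neg_add, h2, hA.sq]
    abel
  have hw : ∀ v, J (v + Z v) = A (v - Z v) := by
    intro v
    have h1 := E1 v
    rw [map_add, map_sub, eq_sub_iff_add_eq]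
    have h2 : J v + J (Z v) + A (Z v) = J v + (A (Z v) + J (Z v)) := by abel
    rw [h2, h1]
    abel
  have hball : InBall s A Z := by
    refine ⟨hanti, fun v hv => ?_⟩
    have hw0 : v + Z v ≠ 0 := by
      intro h0
      have h1 := hw v
      rw [h0, map_zero] at h1
      have h2 : v - Z v = 0 := by
        have h3 := congrArg A h1
        rw [map_zero, hA.sq] at h3
        exact neg_eq_zero.1 h3.symm
      have h4 : v + v = 0 := by
        have h5 : v = Z v := sub_eq_zero.1 h2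
        calc v + v = v + Z v := by rw [← h5]
          _ = 0 := h0
      have h6 : (2 : ℝ) • v = 0 := by rw [two_smul]; exact h4
      exact hv ((smul_eq_zero.1 h6).resolve_left two_ne_zero)
    have h1 : 0 < bl s (v + Z v) (J (v + Z v)) := hJ _ hw0
    rw [hw, hA.diff] at h1
    have h2 : bl s (Z v) (A (Z v)) < bl s v (A v) := by linarith
    exact h2
  refine ⟨hU, hball, ?_⟩
  have hU2 : IsUnit (1 + Z) := by
    refine isUnit_of_inj _ fun v hv => ?_
    by_contra h0
    have h1 : Z v = -v := by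
      have h2 : v + Z v = 0 := hv
      exact (neg_eq_of_add_eq_zero_right h2).symm
    have h3 := hball.lt v h0
    rw [h1] at h3
    have h4 : bl s (-v) (A (-v)) < bl s v (A v) := h3
    rw [map_neg, map_neg, map_neg, LinearMap.neg_apply, neg_neg] at h4
    exact lt_irrefl _ h4
  have h1 : (1 + Z) * A = J * (1 + Z) := by
    ext v
    change A v + Z (A v) = J (v + Z v)
    rw [hw, map_sub, hanti]
    abel
  rw [cayJ, h1, mul_assoc, Ring.mul_inverse_cancel _ hU2, mul_one]

theorem cay_ok {s : V [⋀^Fin 2]→L[ℝ] ℝ} {A Z : V →L[ℝ] V} (hA : Compat s A)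
    (hZ : InBall s A Z) : IsUnit (1 + Z) ∧ (∀ v, cayJ A Z (cayJ A Z v) = -v) ∧
      ∀ w, w ≠ 0 → 0 < s ![w, cayJ A Z w] := by
  have hU : IsUnit (1 + Z) := by
    refine isUnit_of_inj _ fun v hv => ?_
    by_contra h0
    have h1 : Z v = -v := by
      have h2 : v + Z v = 0 := hv
      exact (neg_eq_of_add_eq_zero_right h2).symm
    have h3 := hZ.lt v h0
    rw [h1] at h3
    have h4 : bl s (-v) (A (-v)) < bl s v (A v) := h3
    rw [map_neg, map_neg, map_neg, LinearMap.neg_apply, neg_neg] at h4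
    exact lt_irrefl _ h4
  have hk : cayJ A Z * (1 + Z) = (1 + Z) * A := by
    rw [cayJ, mul_assoc, Ring.inverse_mul_cancel _ hU, mul_one]
  have hk' : ∀ v, cayJ A Z (v + Z v) = A (v - Z v) := by
    intro v
    have h1 := congrArg (fun L : V →L[ℝ] V => L v) hk
    have h2 : cayJ A Z (v + Z v) = A v + Z (A v) := h1
    rw [h2, map_sub, hZ.anti]
    abel
  have hsurj : ∀ w, ∃ v, w = v + Z v := by
    intro w
    refine ⟨Ring.inverse (1 + Z) w, ?_⟩
    have h1 := congrArg (fun L : V →L[ℝ] V => L w) (Ring.mul_inverse_cancel _ hU)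
    exact h1.symm
  refine ⟨hU, fun w => ?_, fun w hw => ?_⟩
  · obtain ⟨v, rfl⟩ := hsurj w
    rw [hk']
    have h1 : A (v - Z v) = A v + Z (A v) := by
      rw [map_sub, hZ.anti]
      abel
    rw [h1, hk', map_sub, hA.sq, hZ.anti, hA.sq, map_neg]
    abel
  · obtain ⟨v, rfl⟩ := hsurj w
    have hv : v ≠ 0 := by
      rintro rfl
      exact hw (by rw [map_zero, add_zero])
    rw [hk']
    change 0 < bl s (v + Z v) (A (v - Z v))
    rw [hA.diff]
    have h1 : bl s (Z v) (A (Z v)) < bl s v (A v) := hZ.lt v hv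
    linarith

omit [FiniteDimensional ℝ V] in
theorem ball_convex {s : V [⋀^Fin 2]→L[ℝ] ℝ} {A Z Z' : V →L[ℝ] V} (hA : Compat s A)
    (hZ : InBall s A Z) (hZ' : InBall s A Z') {t : ℝ} (h0 : 0 ≤ t) (h1 : t ≤ 1) :
    InBall s A ((1 - t) • Z + t • Z') := by
  refine ⟨fun v => ?_, fun v hv => ?_⟩
  · change A ((1 - t) • Z v + t • Z' v) = -((1 - t) • Z (A v) + t • Z' (A v))
    rw [map_add, map_smul, map_smul, hZ.anti, hZ'.anti]
    module
  · change bl s ((1 - t) • Z v + t • Z' v) (A ((1 - t) • Z v + t • Z' v)) < bl s v (A v)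
    have e1 : bl s (Z v) (A (Z v)) < bl s v (A v) := hZ.lt v hv
    have e2 : bl s (Z' v) (A (Z' v)) < bl s v (A v) := hZ'.lt v hv
    have e3 : 0 ≤ bl s (Z v - Z' v) (A (Z v - Z' v)) := by
      by_cases h : Z v - Z' v = 0
      · rw [h, map_zero, LinearMap.zero_apply]
      · exact (hA.pos _ h).le
    have e4 := hA.symm (Z v) (Z' v)
    simp only [map_add, map_sub, map_smul, LinearMap.add_apply, LinearMap.sub_apply,
      LinearMap.smul_apply, smul_eq_mul] at e3 ⊢
    rw [e4] at e3 ⊢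
    have k1 := mul_nonneg (mul_nonneg h0 (sub_nonneg.2 h1)) e3
    have k2 : (1 - t) * bl s (Z v) (A (Z v)) + t * bl s (Z' v) (A (Z' v)) < bl s v (A v) := by
      rcases h1.lt_or_eq with h | h
      · have k3 := mul_pos (sub_pos.2 h) (sub_pos.2 e1)
        have k4 := mul_nonneg h0 (sub_pos.2 e2).le
        linarith
      · rw [h]
        linarith
    linarith

theorem cayZ_cont {A J : V →L[ℝ] V} (h : IsUnit (A + J)) :
    ContinuousAt (fun q : (V →L[ℝ] V) × (V →L[ℝ] V) => cayZ q.1 q.2) (A, J) := by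
  have := FiniteDimensional.complete ℝ V
  obtain ⟨W, hW⟩ := h
  have h1 : ContinuousAt (fun q : (V →L[ℝ] V) × (V →L[ℝ] V) => q.1 + q.2) (A, J) :=
    continuousAt_fst.add continuousAt_snd
  have h2 : ContinuousAt Ring.inverse (A + J) := hW ▸ NormedRing.inverse_continuousAt W
  exact (ContinuousAt.comp (g := Ring.inverse)
    (f := fun q : (V →L[ℝ] V) × (V →L[ℝ] V) => q.1 + q.2) h2 h1).mul
    (continuousAt_fst.sub continuousAt_snd)

theorem cayJ_cont {A Z : V →L[ℝ] V} (h : IsUnit (1 + Z)) :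
    ContinuousAt (fun q : (V →L[ℝ] V) × (V →L[ℝ] V) => cayJ q.1 q.2) (A, Z) := by
  have := FiniteDimensional.complete ℝ V
  obtain ⟨W, hW⟩ := h
  have h1 : ContinuousAt (fun q : (V →L[ℝ] V) × (V →L[ℝ] V) => 1 + q.2) (A, Z) :=
    continuousAt_const.add continuousAt_snd
  have h2 : ContinuousAt Ring.inverse (1 + Z) := hW ▸ NormedRing.inverse_continuousAt W
  exact (h1.mul continuousAt_fst).mul (ContinuousAt.comp (g := Ring.inverse)
    (f := fun q : (V →L[ℝ] V) × (V →L[ℝ] V) => 1 + q.2) h2 h1)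

end

section

variable {R S : Type} [Ring R] [Ring S]

theorem map_inv (c : R →+* S) {u : R} (hu : IsUnit u) : c (Ring.inverse u) = Ring.inverse (c u) := by
  obtain ⟨w, rfl⟩ := hu
  have h1 : c (w : R) = ((Units.map c.toMonoidHom w : Sˣ) : S) := rfl
  rw [Ring.inverse_unit, h1, Ring.inverse_unit]
  rfl

end

end Pool.Agent.Q235.TF
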