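import Pool.Agent.Q235.TF.Cay

/-!
Project TF: two continuous families of almost complex structures tamed by the same forms are
homotopic.
-/

set_option autoImplicit false

open Set Filter Topology
open scoped Manifold ContDiff InnerProductSpace

noncomputable section

namespace Pool.Agent.Q235.TF

open Pool.Agent.Y501.SYP

section

variable {V : Type} [NormedAddCommGroup V] [NormedSpace ℝ V]
  {X : Type} [TopologicalSpace X] [ChartedSpace V X] [IsManifold 𝓘(ℝ, V) ∞ X]

/-- conjugation with the differential of the chart -/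
def cj (x₀ : X) (p : V) (hp : p ∈ (chartAt V x₀).target) : (V →L[ℝ] V) →+* (V →L[ℝ] V) where
  toFun T := inL (V := V) (X := X) (fun _ => T) x₀ p
  map_one' := by
    ext v
    exact comp_symm x₀ hp v
  map_mul' S T := by
    ext v
    change mfderiv 𝓘(ℝ, V) 𝓘(ℝ, V) (chartAt V x₀) ((chartAt V x₀).symm p)
        (S (T (mfderiv 𝓘(ℝ, V) 𝓘(ℝ, V) (chartAt V x₀).symm p v))) =
      mfderiv 𝓘(ℝ, V) 𝓘(ℝ, V) (chartAt V x₀) ((chartAt V x₀).symm p)
        (S (mfderiv 𝓘(ℝ, V) 𝓘(ℝ, V) (chartAt V x₀).symm p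
          (mfderiv 𝓘(ℝ, V) 𝓘(ℝ, V) (chartAt V x₀) ((chartAt V x₀).symm p)
            (T (mfderiv 𝓘(ℝ, V) 𝓘(ℝ, V) (chartAt V x₀).symm p v)))))
    have h1 := symm_comp x₀ hp (T (mfderiv 𝓘(ℝ, V) 𝓘(ℝ, V) (chartAt V x₀).symm p v))
    exact congrArg (fun u : V => mfderiv 𝓘(ℝ, V) 𝓘(ℝ, V) (chartAt V x₀)
      ((chartAt V x₀).symm p) (S u)) h1.symm
  map_zero' := by
    ext v
    exact map_zero (mfderiv 𝓘(ℝ, V) 𝓘(ℝ, V) (chartAt V x₀) ((chartAt V x₀).symm p))
  map_add' S T := by
    ext v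
    exact map_add (mfderiv 𝓘(ℝ, V) 𝓘(ℝ, V) (chartAt V x₀) ((chartAt V x₀).symm p)) _ _

theorem cj_apply (J : X → V →L[ℝ] V) (x₀ : X) (p : V) (hp : p ∈ (chartAt V x₀).target) :
    inL (V := V) (X := X) J x₀ p = cj x₀ p hp (J ((chartAt V x₀).symm p)) := rfl

theorem cj_smul (x₀ : X) (p : V) (hp : p ∈ (chartAt V x₀).target) (t : ℝ) (T : V →L[ℝ] V) :
    cj x₀ p hp (t • T) = t • cj x₀ p hp T := by
  ext v
  exact map_smul (mfderiv 𝓘(ℝ, V) 𝓘(ℝ, V) (chartAt V x₀) ((chartAt V x₀).symm p)) t _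

theorem cj_cayZ (x₀ : X) (p : V) (hp : p ∈ (chartAt V x₀).target) {A J : V →L[ℝ] V}
    (h : IsUnit (A + J)) : cj x₀ p hp (cayZ A J) = cayZ (cj x₀ p hp A) (cj x₀ p hp J) := by
  rw [cayZ, cayZ, map_mul, map_inv _ h, map_add, map_sub]

theorem cj_cayJ (x₀ : X) (p : V) (hp : p ∈ (chartAt V x₀).target) {A Z : V →L[ℝ] V}
    (h : IsUnit (1 + Z)) : cj x₀ p hp (cayJ A Z) = cayJ (cj x₀ p hp A) (cj x₀ p hp Z) := by
  rw [cayJ, cayJ, map_mul, map_mul, map_inv _ h, map_add, map_one]

variable [FiniteDimensional ℝ V]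

theorem connect {B : Type} [TopologicalSpace B] {s : B → Form V X 2}
    {A J J' : B → X → V →L[ℝ] V} (hAc : ContJ (V := V) (X := X) A)
    (hJc : ContJ (V := V) (X := X) J) (hJc' : ContJ (V := V) (X := X) J')
    (hA : ∀ b x, Compat (V := V) (s b x) (A b x)) (hJ2 : ∀ b x v, J b x (J b x v) = -v)
    (hJ : ∀ b x, TamesAt (V := V) (s b) (J b) x) (hJ2' : ∀ b x v, J' b x (J' b x v) = -v)
    (hJ' : ∀ b x, TamesAt (V := V) (s b) (J' b) x) :
    ∃ H : unitInterval × B → X → V →L[ℝ] V, ContJ (V := V) (X := X) H ∧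
      (∀ q x v, H q x (H q x v) = -v) ∧ (∀ q x, TamesAt (V := V) (s q.2) (H q) x) ∧
      (∀ b, H (0, b) = J b) ∧ ∀ b, H (1, b) = J' b := by
  have hB := fun b x => ball_of (V := V) (hA b x) (hJ2 b x) (hJ b x)
  have hB' := fun b x => ball_of (V := V) (hA b x) (hJ2' b x) (hJ' b x)
  set Z : unitInterval × B → X → V →L[ℝ] V := fun q x =>
    (1 - (q.1 : ℝ)) • cayZ (V := V) (A q.2 x) (J q.2 x) + (q.1 : ℝ) • cayZ (V := V) (A q.2 x) (J' q.2 x) with hZ
  have hZb : ∀ q x, InBall (V := V) (s q.2 x) (A q.2 x) (Z q x) := fun q x =>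
    ball_convex (V := V) (hA q.2 x) (hB q.2 x).2.1 (hB' q.2 x).2.1 q.1.2.1 q.1.2.2
  have hok := fun q x => cay_ok (V := V) (hA q.2 x) (hZb q x)
  refine ⟨fun q x => cayJ (V := V) (A q.2 x) (Z q x), ?_, fun q x => (hok q x).2.1,
    fun q x => (hok q x).2.2, fun b => funext fun x => ?_, fun b => funext fun x => ?_⟩
  · intro x₀ v
    have hopen : IsOpen ((univ : Set (unitInterval × B)) ×ˢ (chartAt V x₀).target) :=
      isOpen_univ.prod (chartAt V x₀).open_target
    have key : ContinuousOn (fun q : (unitInterval × B) × V => inL (V := V) (X := X)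
        (fun x => cayJ (V := V) (A q.1.2 x) (Z q.1 x)) x₀ q.2) (univ ×ˢ (chartAt V x₀).target) := by
      intro q₀ hq₀
      refine ContinuousAt.continuousWithinAt ?_
      set L : (unitInterval × B) × V → V →L[ℝ] V := fun q => inL (V := V) (X := X) (A q.1.2) x₀ q.2
        with hL
      set M : (unitInterval × B) × V → V →L[ℝ] V := fun q => inL (V := V) (X := X) (J q.1.2) x₀ q.2
        with hM
      set M' : (unitInterval × B) × V → V →L[ℝ] V :=
        fun q => inL (V := V) (X := X) (J' q.1.2) x₀ q.2 with hM'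
      have hcont : ∀ {G : B → X → V →L[ℝ] V}, ContJ (V := V) (X := X) G →
          ContinuousAt (fun q : (unitInterval × B) × V =>
            inL (V := V) (X := X) (G q.1.2) x₀ q.2) q₀ := by
        intro G hG
        have h1 : ContinuousAt (fun q : B × V => inL (V := V) (X := X) (G q.1) x₀ q.2)
            (q₀.1.2, q₀.2) := (inL_cont hG x₀).continuousAt
          ((isOpen_univ.prod (chartAt V x₀).open_target).mem_nhds
            (mk_mem_prod (mem_univ _) hq₀.2))
        exact ContinuousAt.comp (g := fun q : B × V => inL (V := V) (X := X) (G q.1) x₀ q.2)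
          (f := fun q : (unitInterval × B) × V => (q.1.2, q.2)) (x := q₀) h1
          ((continuous_snd.comp continuous_fst).prodMk continuous_snd).continuousAt
      have hLc : ContinuousAt L q₀ := hcont hAc
      have hMc : ContinuousAt M q₀ := hcont hJc
      have hMc' : ContinuousAt M' q₀ := hcont hJc'
      have hx := hq₀.2
      have u1 : IsUnit (L q₀ + M q₀) := by
        have h1 := ((hB q₀.1.2 ((chartAt V x₀).symm q₀.2)).1).map (cj x₀ q₀.2 hx)
        rw [map_add] at h1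
        exact h1
      have u2 : IsUnit (L q₀ + M' q₀) := by
        have h1 := ((hB' q₀.1.2 ((chartAt V x₀).symm q₀.2)).1).map (cj x₀ q₀.2 hx)
        rw [map_add] at h1
        exact h1
      have hZc : ∀ q : (unitInterval × B) × V, q.2 ∈ (chartAt V x₀).target →
          inL (V := V) (X := X) (Z q.1) x₀ q.2 = (1 - (q.1.1 : ℝ)) • cayZ (L q) (M q) +
            (q.1.1 : ℝ) • cayZ (L q) (M' q) := by
        intro q hq
        rw [cj_apply _ x₀ q.2 hq, hZ]
        change cj x₀ q.2 hq ((1 - (q.1.1 : ℝ)) • cayZ _ _ + (q.1.1 : ℝ) • cayZ _ _) = _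
        rw [map_add, cj_smul, cj_smul, cj_cayZ _ _ _ (hB q.1.2 _).1, cj_cayZ _ _ _ (hB' q.1.2 _).1]
        rfl
      have hall : ∀ q : (unitInterval × B) × V, q.2 ∈ (chartAt V x₀).target →
          inL (V := V) (X := X) (fun x => cayJ (V := V) (A q.1.2 x) (Z q.1 x)) x₀ q.2 =
            cayJ (L q) ((1 - (q.1.1 : ℝ)) • cayZ (L q) (M q) +
            (q.1.1 : ℝ) • cayZ (L q) (M' q)) := by
        intro q hq
        rw [cj_apply _ x₀ q.2 hq, cj_cayJ _ _ _ (hok q.1 _).1, ← hZc q hq]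
        rfl
      have u3 : IsUnit (1 + ((1 - (q₀.1.1 : ℝ)) • cayZ (L q₀) (M q₀) +
            (q₀.1.1 : ℝ) • cayZ (L q₀) (M' q₀))) := by
        have h1 := ((hok q₀.1 ((chartAt V x₀).symm q₀.2)).1).map (cj x₀ q₀.2 hx)
        rw [map_add, map_one] at h1
        rw [← hZc q₀ hx]
        exact h1
      have c1 : ContinuousAt (fun q => cayZ (L q) (M q)) q₀ :=
        ContinuousAt.comp (g := fun q : (V →L[ℝ] V) × (V →L[ℝ] V) => cayZ q.1 q.2)
          (f := fun q => (L q, M q)) (x := q₀) (cayZ_cont u1) (hLc.prodMk hMc)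
      have c2 : ContinuousAt (fun q => cayZ (L q) (M' q)) q₀ :=
        ContinuousAt.comp (g := fun q : (V →L[ℝ] V) × (V →L[ℝ] V) => cayZ q.1 q.2)
          (f := fun q => (L q, M' q)) (x := q₀) (cayZ_cont u2) (hLc.prodMk hMc')
      have ct : ContinuousAt (fun q : (unitInterval × B) × V => (q.1.1 : ℝ)) q₀ :=
        (continuous_subtype_val.comp (continuous_fst.comp continuous_fst)).continuousAt
      have c3 : ContinuousAt (fun q : (unitInterval × B) × V =>
          (1 - (q.1.1 : ℝ)) • cayZ (L q) (M q) + (q.1.1 : ℝ) • cayZ (L q) (M' q)) q₀ :=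
        ((continuousAt_const.sub ct).smul c1).add (ct.smul c2)
      have c4 : ContinuousAt (fun q : (unitInterval × B) × V => cayJ (L q)
          ((1 - (q.1.1 : ℝ)) • cayZ (L q) (M q) + (q.1.1 : ℝ) • cayZ (L q) (M' q))) q₀ :=
        ContinuousAt.comp (g := fun q : (V →L[ℝ] V) × (V →L[ℝ] V) => cayJ q.1 q.2)
          (f := fun q : (unitInterval × B) × V => (L q,
            (1 - (q.1.1 : ℝ)) • cayZ (L q) (M q) + (q.1.1 : ℝ) • cayZ (L q) (M' q))) (x := q₀)
          (cayJ_cont u3) (hLc.prodMk c3)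
      refine c4.congr ?_
      filter_upwards [hopen.mem_nhds hq₀] with q hq
      exact (hall q hq.2).symm
    exact key.clm_apply continuousOn_const
  · have h1 : Z (0, b) x = cayZ (V := V) (A b x) (J b x) := by
      change (1 - (0 : ℝ)) • cayZ (V := V) (A b x) (J b x) + (0 : ℝ) • cayZ (V := V) (A b x) (J' b x) = _
      rw [sub_zero, one_smul, zero_smul, add_zero]
    change cayJ (V := V) (A b x) (Z (0, b) x) = J b x
    rw [h1]
    exact (hB b x).2.2
  · have h1 : Z (1, b) x = cayZ (V := V) (A b x) (J' b x) := by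
      change (1 - (1 : ℝ)) • cayZ (V := V) (A b x) (J b x) + (1 : ℝ) • cayZ (V := V) (A b x) (J' b x) = _
      rw [sub_self, one_smul, zero_smul, zero_add]
    change cayJ (V := V) (A b x) (Z (1, b) x) = J' b x
    rw [h1]
    exact (hB' b x).2.2

end

end Pool.Agent.Q235.TF
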