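import Mathlib

/-!
Project TF: the orthogonal complex structure of a skew-symmetric isomorphism.
-/

set_option autoImplicit false

open Set Filter Topology
open scoped InnerProductSpace

noncomputable section

namespace Pool.Agent.Q235.TF

variable {R : Type} [NormedAddCommGroup R] [InnerProductSpace ℝ R]

/-- positive square roots act on eigenvectors in the expected way -/
theorem sqrt_eigen {S P : R →ₗ[ℝ] R} (hP : ∀ v, 0 ≤ ⟪P v, v⟫_ℝ) (hPS : ∀ v, P (P v) = S v)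
    {μ : ℝ} (hμ : 0 < μ) {v : R} (hv : S v = (μ ^ 2) • v) : P v = μ • v := by
  have h1 : P (P v - μ • v) = -(μ • (P v - μ • v)) := by
    rw [map_sub, map_smul, hPS, hv]
    module
  have h2 := hP (P v - μ • v)
  rw [h1, inner_neg_left, real_inner_smul_left, real_inner_self_eq_norm_sq] at h2
  have h3 : ‖P v - μ • v‖ ^ 2 ≤ 0 := by
    by_contra h
    push Not at h
    have := mul_pos hμ h
    linarith
  have h4 : ‖P v - μ • v‖ = 0 := by
    have := sq_nonneg ‖P v - μ • v‖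
    exact pow_eq_zero_iff (two_ne_zero) |>.1 (le_antisymm h3 this)
  exact sub_eq_zero.1 (norm_eq_zero.1 h4)

/-- the properties of the complex structure -/
structure Cs (A J : R →ₗ[ℝ] R) : Prop where
  sq : ∀ v, J (J v) = -v
  iso : ∀ u v, ⟪J u, J v⟫_ℝ = ⟪u, v⟫_ℝ
  comm : ∀ v, J (A v) = A (J v)
  nn : ∀ v, 0 ≤ ⟪A v, J v⟫_ℝ

theorem Cs.skew {A J : R →ₗ[ℝ] R} (h : Cs A J) (u v : R) : ⟪J u, v⟫_ℝ = -⟪u, J v⟫_ℝ := by
  have h1 := h.iso u (J v)
  rw [h.sq, inner_neg_right] at h1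
  linarith

variable [FiniteDimensional ℝ R]

/-- an orthonormal basis of eigenvectors of `-A²` -/
theorem exists_eigen {A : R →ₗ[ℝ] R} (hA : ∀ u v, ⟪A u, v⟫_ℝ = -⟪u, A v⟫_ℝ)
    (hinj : ∀ v, A v = 0 → v = 0) : ∃ (n : ℕ) (b : OrthonormalBasis (Fin n) ℝ R) (μ : Fin n → ℝ),
      (∀ i, 0 < μ i) ∧ ∀ i, -(A (A (b i))) = (μ i ^ 2) • b i := by
  have hS : (-(A ∘ₗ A)).IsSymmetric := by
    intro u v
    change ⟪-(A (A u)), v⟫_ℝ = ⟪u, -(A (A v))⟫_ℝ
    rw [inner_neg_left, inner_neg_right, hA, hA, neg_neg]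
  refine ⟨Module.finrank ℝ R, hS.eigenvectorBasis rfl, fun i => Real.sqrt (hS.eigenvalues rfl i),
    fun i => ?_, fun i => ?_⟩
  · refine Real.sqrt_pos.2 ?_
    have h1 := hS.apply_eigenvectorBasis rfl i
    have h2 : ⟪-(A (A (hS.eigenvectorBasis rfl i))), hS.eigenvectorBasis rfl i⟫_ℝ =
        hS.eigenvalues rfl i := by
      refine (congrArg (fun w => ⟪w, hS.eigenvectorBasis rfl i⟫_ℝ) h1).trans ?_
      rw [real_inner_smul_left, real_inner_self_eq_norm_sq, (hS.eigenvectorBasis rfl).norm_eq_one]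
      simp
    rw [inner_neg_left, hA, neg_neg, real_inner_self_eq_norm_sq] at h2
    rw [← h2]
    have h3 : A (hS.eigenvectorBasis rfl i) ≠ 0 := fun h0 =>
      (hS.eigenvectorBasis rfl).orthonormal.ne_zero i (hinj _ h0)
    positivity
  · have h1 := hS.apply_eigenvectorBasis rfl i
    have h4 : 0 ≤ hS.eigenvalues rfl i := by
      have h2 : ⟪-(A (A (hS.eigenvectorBasis rfl i))), hS.eigenvectorBasis rfl i⟫_ℝ =
          hS.eigenvalues rfl i := by
        refine (congrArg (fun w => ⟪w, hS.eigenvectorBasis rfl i⟫_ℝ) h1).trans ?_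
        rw [real_inner_smul_left, real_inner_self_eq_norm_sq,
          (hS.eigenvectorBasis rfl).norm_eq_one]
        simp
      rw [inner_neg_left, hA, neg_neg, real_inner_self_eq_norm_sq] at h2
      rw [← h2]
      positivity
    rw [Real.sq_sqrt h4]
    exact h1

theorem cs_unique {A : R →ₗ[ℝ] R} (hA : ∀ u v, ⟪A u, v⟫_ℝ = -⟪u, A v⟫_ℝ)
    (hinj : ∀ v, A v = 0 → v = 0) {J J' : R →ₗ[ℝ] R} (h : Cs A J) (h' : Cs A J') : J = J' := by
  obtain ⟨n, b, μ, hμ, hb⟩ := exists_eigen hA hinj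
  have key : ∀ K : R →ₗ[ℝ] R, Cs A K → ∀ i, K (b i) = (μ i)⁻¹ • A (b i) := by
    intro K hK i
    have h1 := sqrt_eigen (S := -(A ∘ₗ A)) (P := -(K ∘ₗ A)) (fun v => by
      change 0 ≤ ⟪-(K (A v)), v⟫_ℝ
      rw [inner_neg_left, hK.skew, neg_neg]
      exact hK.nn v) (fun v => by
      change -(K (A (-(K (A v))))) = -(A (A v))
      rw [map_neg, map_neg, neg_neg, ← hK.comm (A v), hK.sq]) (hμ i) (hb i)
    have h2 : -(K (A (b i))) = μ i • b i := h1
    have h3 : A (b i) = μ i • K (b i) := by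
      have h4 := congrArg K h2
      rw [map_neg, hK.sq, neg_neg, map_smul] at h4
      exact h4
    rw [h3, smul_smul, inv_mul_cancel₀ (hμ i).ne', one_smul]
  exact b.toBasis.ext fun i => by
    rw [OrthonormalBasis.coe_toBasis, key J h i, key J' h' i]

theorem cs_exists {A : R →ₗ[ℝ] R} (hA : ∀ u v, ⟪A u, v⟫_ℝ = -⟪u, A v⟫_ℝ)
    (hinj : ∀ v, A v = 0 → v = 0) : ∃ J : R →ₗ[ℝ] R, Cs A J ∧ ∀ v ≠ 0, 0 < ⟪A v, J v⟫_ℝ := by
  obtain ⟨n, b, μ, hμ, hb⟩ := exists_eigen hA hinj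
  obtain ⟨Q, hQ⟩ : ∃ Q : R →ₗ[ℝ] R, ∀ i, Q (b i) = (μ i)⁻¹ • b i :=
    ⟨b.toBasis.constr ℝ (fun i => (μ i)⁻¹ • b i), fun i => by
      have := b.toBasis.constr_basis ℝ (fun i => (μ i)⁻¹ • b i) i
      rwa [OrthonormalBasis.coe_toBasis] at this⟩
  have hS : ∀ u v, ⟪-(A (A u)), v⟫_ℝ = ⟪u, -(A (A v))⟫_ℝ := by
    intro u v
    rw [inner_neg_left, inner_neg_right, hA, hA, neg_neg]
  have dQ : ∀ j w, ⟪b j, Q w⟫_ℝ = (μ j)⁻¹ * ⟪b j, w⟫_ℝ := by
    intro j w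
    have h1 : ((innerₗ R (b j)) ∘ₗ Q) = (μ j)⁻¹ • innerₗ R (b j) := by
      refine b.toBasis.ext fun i => ?_
      rw [OrthonormalBasis.coe_toBasis]
      change ⟪b j, Q (b i)⟫_ℝ = (μ j)⁻¹ * ⟪b j, b i⟫_ℝ
      rw [hQ, real_inner_smul_right]
      by_cases hij : j = i
      · rw [hij]
      · rw [b.orthonormal.2 hij, mul_zero, mul_zero]
    exact LinearMap.congr_fun h1 w
  have dS : ∀ j w, ⟪b j, -(A (A w))⟫_ℝ = μ j ^ 2 * ⟪b j, w⟫_ℝ := by
    intro j w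
    rw [← hS, hb, real_inner_smul_left]
  have hext : ∀ u v : R, (∀ j, ⟪b j, u⟫_ℝ = ⟪b j, v⟫_ℝ) → u = v := fun u v h => by
    rw [← b.sum_repr' u, ← b.sum_repr' v]
    exact Finset.sum_congr rfl fun j _ => by rw [h j]
  have hsym : ∀ u v, ⟪Q u, v⟫_ℝ = ⟪u, Q v⟫_ℝ := by
    intro u v
    rw [← b.sum_inner_mul_inner (Q u) v, ← b.sum_inner_mul_inner u (Q v)]
    refine Finset.sum_congr rfl fun j _ => ?_
    rw [real_inner_comm, dQ, dQ, real_inner_comm]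
    ring
  have hcomm : ∀ v, Q (A v) = A (Q v) := by
    have h1 : Q ∘ₗ A = A ∘ₗ Q := by
      refine b.toBasis.ext fun i => ?_
      rw [OrthonormalBasis.coe_toBasis]
      refine hext _ _ fun j => ?_
      change ⟪b j, Q (A (b i))⟫_ℝ = ⟪b j, A (Q (b i))⟫_ℝ
      rw [dQ, hQ, map_smul, real_inner_smul_right]
      have h2 := dS j (A (b i))
      have h3 : -(A (A (A (b i)))) = (μ i ^ 2) • A (b i) := by
        rw [← map_neg, hb, map_smul]
      rw [h3, real_inner_smul_right] at h2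
      by_cases hc : ⟪b j, A (b i)⟫_ℝ = 0
      · rw [hc, mul_zero, mul_zero]
      · have h4 : μ i ^ 2 = μ j ^ 2 := mul_right_cancel₀ hc h2
        have h5 : μ i = μ j := by
          have := (sq_eq_sq₀ (hμ i).le (hμ j).le).1 h4
          exact this
        rw [h5]
    exact fun v => LinearMap.congr_fun h1 v
  have hQQ : ∀ v, Q (Q (-(A (A v)))) = v := by
    intro v
    refine hext _ _ fun j => ?_
    rw [dQ, dQ, dS]
    have := (hμ j).ne'
    field_simp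
  have hAQ : ∀ v, A (A (Q v)) = Q (A (A v)) := fun v => by rw [hcomm, hcomm]
  have hsum : ∀ v, ⟪A v, A (Q v)⟫_ℝ = ∑ j, μ j * ⟪b j, v⟫_ℝ ^ 2 := by
    intro v
    have h1 : ⟪A v, A (Q v)⟫_ℝ = ⟪-(A (A v)), Q v⟫_ℝ := by
      rw [inner_neg_left, hA (A v), neg_neg]
    rw [h1, ← b.sum_inner_mul_inner (-(A (A v))) (Q v)]
    refine Finset.sum_congr rfl fun j _ => ?_
    rw [real_inner_comm, dS, dQ]
    have := (hμ j).ne'
    field_simp
  refine ⟨A ∘ₗ Q, ⟨fun v => ?_, fun u v => ?_, fun v => ?_, fun v => ?_⟩, fun v hv => ?_⟩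
  · change A (Q (A (Q v))) = -v
    have h1 : A (Q (A (Q v))) = Q (Q (A (A v))) := by
      rw [← hcomm (A (Q v)), hAQ]
    have h2 := hQQ v
    rw [map_neg, map_neg] at h2
    rw [h1, ← neg_eq_iff_eq_neg]
    exact h2
  · change ⟪A (Q u), A (Q v)⟫_ℝ = ⟪u, v⟫_ℝ
    have h2 := hQQ v
    rw [hA, hAQ, hsym, ← inner_neg_right, ← map_neg, ← map_neg, h2]
  · change A (Q (A v)) = A (A (Q v))
    rw [hcomm]
  · change 0 ≤ ⟪A v, A (Q v)⟫_ℝ
    rw [hsum]
    exact Finset.sum_nonneg fun j _ => mul_nonneg (hμ j).le (sq_nonneg _)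
  · change 0 < ⟪A v, A (Q v)⟫_ℝ
    rw [hsum]
    obtain ⟨j, hj⟩ : ∃ j, ⟪b j, v⟫_ℝ ≠ 0 := by
      by_contra hc
      push Not at hc
      exact hv (hext v 0 fun j => by rw [hc j, inner_zero_right])
    exact Finset.sum_pos' (fun j _ => mul_nonneg (hμ j).le (sq_nonneg _))
      ⟨j, Finset.mem_univ j, mul_pos (hμ j) (by positivity)⟩

end Pool.Agent.Q235.TF
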