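import Pool.Agent.Q235.TF.Homot
import Pool.Agent.Y501.SY.FinalV
import Pool.Agent.Q235.SR.FinalC

/-!
Project TF: the structures which are weakly or singularly tamed in the class are tameable.
-/

set_option autoImplicit false

open Set Filter Topology MeasureTheory
open scoped Manifold ContDiff

noncomputable section

namespace Pool.Agent.Q235.TF

open Pool.Agent.Y501.SYP Pool.Agent.Q235.SRP
open Pool.Agent.Q235.SZ (SForm InClass)

section

variable {d : ℕ} {X : Type} [TopologicalSpace X] [ChartedSpace (ES d) X]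
  [IsManifold 𝓘(ℝ, ES d) ∞ X]

theorem tameable_of {τ : SForm (ES d) X} {J : End (ES d) X} {α : Form (ES d) X 1}
    {ρ : Form (ES d) X 2} (hα : IsSmooth α) (hρ : IsSmooth ρ) (hαρ : IsD α ρ)
    (h : IsTamingSymplectic (addF τ.1 ρ) J) : Tameable τ J := by
  refine ⟨⟨addF τ.1 ρ, h.smooth⟩, ⟨h.closed, α, hα, fun U φ hφ p hp => ?_⟩, h.tames⟩
  refine (hαρ U φ hφ p hp).trans ?_
  ext m
  change (ρ (φ p)) _ = (τ.1 (φ p)) _ + (ρ (φ p)) _ - (τ.1 (φ p)) _
  ring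

theorem tameable [CompactSpace X] [T2Space X] (hd : 1 ≤ d) {τ : SForm (ES d) X}
    (hc : IsClosedForm τ.1) {J : AStr (ES d) X} (h : J ∈ Structures τ.1) : Tameable τ J.1 := by
  obtain ⟨K, β, σ, hK, hH, h1, h2, h3, h4, h5, h6⟩ | ⟨K, β, σ, hK, hH, hol, h1⟩ := h
  · obtain ⟨α, ρ, hα, hρ, hαρ, hs, -⟩ := removableInClass hd J.1 J.2 K hK hH τ.1 τ.2 hc β σ h1 h2
      h3 h4 h5 h6
    exact tameable_of hα hρ hαρ hs
  · obtain ⟨α, ρ, hα, hρ, hαρ, hs, -, -⟩ := fillC J.1 J.2 K hK hH hol τ.1 τ.2 hc β σ h1 univ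
      isOpen_univ (subset_univ K)
    exact tameable_of hα hρ hαρ hs

theorem mem_structures {τ : SForm (ES d) X} {J : AStr (ES d) X} {σ : SForm (ES d) X}
    (h : InClass τ.1 σ.1) (hJ : ∀ x, TamesAt σ.1 J.1 x) : J ∈ Structures τ.1 := by
  obtain ⟨-, α, hα, hαd⟩ := h
  refine Or.inr ⟨∅, α, σ.1, isCompact_empty, fun x => ?_, fun x hx => absurd hx (notMem_empty x),
    ⟨fun U φ hφ _ => hα U φ hφ, fun U φ hφ _ => σ.2 U φ hφ, fun U φ hφ _ p hp => ?_,
      fun x _ => hJ x, fun x hx => absurd hx (notMem_empty x)⟩⟩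
  · rw [empty_inter, image_empty, measure_empty]
  · rw [hαd U φ hφ p hp]
    ext m
    change (σ.1 (φ p)) _ = (τ.1 (φ p)) _ + ((σ.1 (φ p)) _ - (τ.1 (φ p)) _)
    ring

end

end Pool.Agent.Q235.TF
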