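import Pool.Agent.Q235.TF.TopJ

/-!
Project TF: families of symplectic forms and families of tamed structures.
-/

set_option autoImplicit false

open Set Filter Topology
open scoped Manifold ContDiff InnerProductSpace

noncomputable section

namespace Pool.Agent.Q235.TF

open Pool.Agent.Y501.SYP
open Pool.Agent.Q235.SZ (SForm InClass SympClass)

section

variable {d : ℕ} {X : Type} [TopologicalSpace X] [ChartedSpace (ES d) X]
  [IsManifold 𝓘(ℝ, ES d) ∞ X] [CompactSpace X] [T2Space X] {τ : SForm (ES d) X}
  {B : Type} [TopologicalSpace B]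

/-- the family `f` of forms tames the family `J` of structures -/
def TamesFam (f : C(B, SympClass τ)) (J : C(B, Structures τ.1)) : Prop :=
  ∀ b x, TamesAt (f b).1.1 (J b).1.1 x

omit [IsManifold 𝓘(ℝ, ES d) ∞ X] [CompactSpace X] [T2Space X] in
theorem contJ (J : C(B, Structures τ.1)) : ContJ fun b => (J b).1.1 := by
  have := fd (d := d)
  have hpr : ProperSpace (ES d) := FiniteDimensional.proper ℝ (ES d)
  exact contJ_of (continuous_subtype_val.comp J.continuous)

theorem form_of (hd : 1 ≤ d) (hc : IsClosedForm τ.1) [CompactSpace B] [T2Space B]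
    (J : C(B, Structures τ.1)) : ∃ f : C(B, SympClass τ), TamesFam f J :=
  liftC hc (contJ J) fun b => tameable hd hc (J b).2

/-- a family of structures which are tamed by a family of forms -/
def mkJ (f : C(B, SympClass τ)) (J : B → End (ES d) X) (hJ : ContJ J)
    (hJ1 : ∀ b, IsAlmostComplex (J b)) (hJ2 : ∀ b x, TamesAt (f b).1.1 (J b) x) :
    C(B, Structures τ.1) :=
  ⟨fun b => ⟨⟨J b, hJ1 b⟩, mem_structures (f b).2.1 (hJ2 b)⟩,
    Continuous.subtype_mk (continuous_of (J := fun b => ⟨J b, hJ1 b⟩) hJ) _⟩

theorem str_of (f : C(B, SympClass τ)) : ∃ J : C(B, Structures τ.1), TamesFam f J := by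
  obtain ⟨J, hJ, hJ1, hJ2, -⟩ := realize f
  exact ⟨mkJ f J hJ hJ1 hJ2, hJ2⟩

theorem form_homotopic (hd : 1 ≤ d) (hc : IsClosedForm τ.1) [CompactSpace B] [T2Space B]
    {f g : C(B, SympClass τ)} {J J' : C(B, Structures τ.1)} (hf : TamesFam f J) (hg : TamesFam g J')
    (h : J.Homotopic J') : f.Homotopic g := by
  obtain ⟨H⟩ := h
  refine homotopic hc f g (fun q => (H q).1.1) (contJ H.toContinuousMap)
    (fun q => tameable hd hc (H q).2) (fun b x => ?_) (fun b x => ?_)
  · have h1 : H (0, b) = J b := H.apply_zero b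
    rw [h1]
    exact hf b x
  · have h1 : H (1, b) = J' b := H.apply_one b
    rw [h1]
    exact hg b x

/-- two families of structures tamed by the same family of forms are homotopic -/
theorem str_same (f : C(B, SympClass τ)) {J J' : C(B, Structures τ.1)} (h : TamesFam f J)
    (h' : TamesFam f J') : J.Homotopic J' := by
  have := fd (d := d)
  obtain ⟨A, hA, hA1, hA2, hA3⟩ := realize f
  obtain ⟨H, h1, h2, h3, h4, h5⟩ := connect (V := ES d) (X := X) (s := fun b => (f b).1.1)
    (A := A) (J := fun b => (J b).1.1) (J' := fun b => (J' b).1.1) hA (contJ J) (contJ J')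
    (fun b x => ⟨(hA1 b).sq x, hA3 b x, fun v hv => hA2 b x v hv⟩)
    (fun b x => (J b).1.2.sq x) h (fun b x => (J' b).1.2.sq x) h'
  have hac : ∀ q, IsAlmostComplex (V := ES d) (X := X) (H q) := by
    intro q
    refine ⟨h2 q, fun x₀ v => ?_⟩
    have e1 : ContinuousOn (fun p : ES d => ((q, p) : (unitInterval × B) × ES d))
        (chartAt (ES d) x₀).target := by
      fun_prop
    exact (h1 x₀ v).comp e1 fun p hp => mk_mem_prod (mem_univ q) hp
  let F : C(unitInterval × B, SympClass τ) := f.comp ⟨fun q => q.2, continuous_snd⟩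
  refine ⟨{ toFun := mkJ F H h1 hac h3
            continuous_toFun := (mkJ F H h1 hac h3).continuous
            map_zero_left := fun b => Subtype.ext (Subtype.ext (h4 b))
            map_one_left := fun b => Subtype.ext (Subtype.ext (h5 b)) }⟩

theorem str_homotopic {f g : C(B, SympClass τ)} {J J' : C(B, Structures τ.1)} (hf : TamesFam f J)
    (hg : TamesFam g J') (h : f.Homotopic g) : J.Homotopic J' := by
  obtain ⟨H⟩ := h
  obtain ⟨K, hK⟩ := str_of H.toContinuousMap
  let K₀ : C(B, Structures τ.1) := K.comp ⟨fun b => (0, b), by fun_prop⟩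
  let K₁ : C(B, Structures τ.1) := K.comp ⟨fun b => (1, b), by fun_prop⟩
  have h0 : TamesFam f K₀ := by
    intro b x
    have e1 : H (0, b) = f b := H.apply_zero b
    rw [← e1]
    exact hK (0, b) x
  have h1 : TamesFam g K₁ := by
    intro b x
    have e1 : H (1, b) = g b := H.apply_one b
    rw [← e1]
    exact hK (1, b) x
  have h3 : K₀.Homotopic K₁ := ⟨{ toFun := fun q => K q
                                  continuous_toFun := K.continuous
                                  map_zero_left := fun b => rfl
                                  map_one_left := fun b => rfl }⟩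
  exact ((str_same f hf h0).trans h3).trans (str_same g h1 hg)

theorem homotopic_iff (hd : 1 ≤ d) (hc : IsClosedForm τ.1) [CompactSpace B] [T2Space B]
    {f g : C(B, SympClass τ)} {J J' : C(B, Structures τ.1)} (hf : TamesFam f J) (hg : TamesFam g J') :
    f.Homotopic g ↔ J.Homotopic J' :=
  ⟨str_homotopic hf hg, form_homotopic hd hc hf hg⟩

theorem null_iff (hd : 1 ≤ d) (hc : IsClosedForm τ.1) [CompactSpace B] [T2Space B] :
    (∀ f : C(B, SympClass τ), f.Nullhomotopic) ↔ ∀ J : C(B, Structures τ.1), J.Nullhomotopic := by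
  constructor
  · intro h J
    obtain ⟨f, hf⟩ := form_of hd hc J
    obtain ⟨σ, hσ⟩ := h f
    obtain ⟨K, hK⟩ := str_of (B := Unit) (ContinuousMap.const Unit σ)
    exact ⟨K (), str_homotopic hf (J' := ContinuousMap.const B (K ()))
      (fun b x => hK () x) hσ⟩
  · intro h f
    obtain ⟨J, hJ⟩ := str_of f
    obtain ⟨K, hK⟩ := h J
    obtain ⟨w, hw⟩ := form_of hd hc (B := Unit) (ContinuousMap.const Unit K)
    exact ⟨w (), form_homotopic hd hc hJ (g := ContinuousMap.const B (w ()))
      (J' := ContinuousMap.const B K) (fun b x => hw () x) hK⟩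

end

end Pool.Agent.Q235.TF
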