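import Pool.Agent.Q235.TF.Nd

/-!
Project TF: homotopies of families of nondegenerate forms into the symplectic forms of a class.
-/

set_option autoImplicit false

open Set Filter Topology
open scoped Manifold ContDiff InnerProductSpace

noncomputable section

namespace Pool.Agent.Q235.TF

open Pool.Agent.Y501.SYP
open Pool.Agent.Q235.SZ (SForm InClass SympClass Nondeg addS zeroS addS_continuous joint seg
  seg_zero' seg_one' seg_qd nondeg_of_tames)

section

variable {d : ℕ} {X : Type} [TopologicalSpace X] [ChartedSpace (ES d) X]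
  [IsManifold 𝓘(ℝ, ES d) ∞ X]

variable (d X) in
/-- the nondegenerate smooth two-forms -/
def NondegForms : Set (SForm (ES d) X) := {σ | Nondeg σ.1}

/-- the inclusion of the symplectic forms of the class of `θ` in the nondegenerate forms -/
def inclS (θ : SForm (ES d) X) : C(SympClass θ, NondegForms d X) :=
  ⟨fun σ => ⟨σ.1, σ.2.2⟩, Continuous.subtype_mk continuous_subtype_val _⟩

/-- the inclusion of the structures tamed weakly or up to singularities in all almost complex
structures -/
def inclT (θ : SForm (ES d) X) : C(Structures θ.1, AStr (ES d) X) :=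
  ⟨Subtype.val, continuous_subtype_val⟩

/-- the family `f` of nondegenerate forms tames the family `J` of almost complex structures -/
def TamesN {B : Type} [TopologicalSpace B] (f : C(B, NondegForms d X))
    (J : C(B, AStr (ES d) X)) : Prop := ∀ b x, TamesAt (f b).1.1 (J b).1 x

theorem sameN {B : Type} [TopologicalSpace B] {f g : C(B, NondegForms d X)}
    {J : C(B, AStr (ES d) X)} (hf : TamesN f J) (hg : TamesN g J) : f.Homotopic g := by
  have key : ∀ (q : unitInterval × B) (x : X), TamesAt (seg (f q.2).1 (g q.2).1 q.1).1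
      (J q.2).1 x := by
    intro q x v hv
    rw [seg_qd]
    have h3 : 0 < qd (f q.2).1.1 (J q.2).1 x v := hf q.2 x v hv
    have h4 : 0 < qd (g q.2).1.1 (J q.2).1 x v := hg q.2 x v hv
    rcases eq_or_lt_of_le q.1.2.1 with h | h
    · rw [← h]
      linarith
    · have h5 := mul_pos h h4
      have h6 : 0 ≤ (1 - (q.1 : ℝ)) * qd (f q.2).1.1 (J q.2).1 x v :=
        mul_nonneg (by linarith [q.1.2.2]) h3.le
      linarith
  refine ⟨{ toFun := fun q => ⟨seg (f q.2).1 (g q.2).1 q.1,
              fun x v hv => nondeg_of_tames (key q x) v hv⟩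
            continuous_toFun := ?_
            map_zero_left := fun b => Subtype.ext (seg_zero' _ _)
            map_one_left := fun b => Subtype.ext (seg_one' _ _) }⟩
  refine Continuous.subtype_mk ?_ _
  exact seg_cont (continuous_subtype_val.comp (f.continuous.comp continuous_snd))
    (continuous_subtype_val.comp (g.continuous.comp continuous_snd))
    (continuous_subtype_val.comp continuous_fst)

omit [IsManifold 𝓘(ℝ, ES d) ∞ X] in
theorem contA {B : Type} [TopologicalSpace B] (J : C(B, AStr (ES d) X)) :
    ContJ fun b => (J b).1 := by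
  have := fd (d := d)
  have hpr : ProperSpace (ES d) := FiniteDimensional.proper ℝ (ES d)
  exact contJ_of J.continuous

omit [IsManifold 𝓘(ℝ, ES d) ∞ X] in
/-- a continuous family of structures as a continuous map -/
def mkA {B : Type} [TopologicalSpace B] (J : B → End (ES d) X) (hJ : ContJ J)
    (hJ1 : ∀ b, IsAlmostComplex (J b)) : C(B, AStr (ES d) X) :=
  ⟨fun b => ⟨J b, hJ1 b⟩, continuous_of (J := fun b => ⟨J b, hJ1 b⟩) hJ⟩

variable [CompactSpace X] [T2Space X]

theorem sameA {B : Type} [TopologicalSpace B] {f : C(B, NondegForms d X)}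
    {J J' : C(B, AStr (ES d) X)} (h : TamesN f J) (h' : TamesN f J') : J.Homotopic J' := by
  have := fd (d := d)
  obtain ⟨A, hA, hA1, hA2, hA3⟩ := realizeN (s := fun b => (f b).1)
    (continuous_subtype_val.comp f.continuous) (fun b => (f b).2)
  obtain ⟨H, h1, h2, h3, h4, h5⟩ := connect (V := ES d) (X := X) (s := fun b => (f b).1.1)
    (A := A) (J := fun b => (J b).1) (J' := fun b => (J' b).1) hA (contA J) (contA J')
    (fun b x => ⟨(hA1 b).sq x, hA3 b x, fun v hv => hA2 b x v hv⟩)
    (fun b x => (J b).2.sq x) h (fun b x => (J' b).2.sq x) h'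
  have hac : ∀ q, IsAlmostComplex (V := ES d) (X := X) (H q) := by
    intro q
    refine ⟨h2 q, fun x₀ v => ?_⟩
    have e1 : ContinuousOn (fun p : ES d => ((q, p) : (unitInterval × B) × ES d))
        (chartAt (ES d) x₀).target := by
      fun_prop
    exact (h1 x₀ v).comp e1 fun p hp => mk_mem_prod (mem_univ q) hp
  exact ⟨{ toFun := mkA H h1 hac
           continuous_toFun := (mkA H h1 hac).continuous
           map_zero_left := fun b => Subtype.ext (h4 b)
           map_one_left := fun b => Subtype.ext (h5 b) }⟩

theorem tamedHomotopy (hd : 1 ≤ d) {θ : SForm (ES d) X} (hc : IsClosedForm θ.1) {B : Type}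
    [TopologicalSpace B] [CompactSpace B] [T2Space B] {f : C(B, NondegForms d X)}
    {J : C(B, AStr (ES d) X)} (h : TamesN f J) :
    (∃ g : C(B, SympClass θ), f.Homotopic ((inclS θ).comp g)) ↔
      ∃ K : C(B, Structures θ.1), J.Homotopic ((inclT θ).comp K) := by
  constructor
  · rintro ⟨g, ⟨H⟩⟩
    obtain ⟨A, hA, hA1, hA2, -⟩ := realizeN (s := fun q => (H q).1)
      (continuous_subtype_val.comp H.continuous) (fun q => (H q).2)
    let A' : C(unitInterval × B, AStr (ES d) X) := mkA A hA hA1
    let A₀ : C(B, AStr (ES d) X) := A'.comp ⟨fun b => (0, b), by fun_prop⟩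
    let A₁ : C(B, AStr (ES d) X) := A'.comp ⟨fun b => (1, b), by fun_prop⟩
    have h0 : TamesN f A₀ := by
      intro b x
      have e1 : H (0, b) = f b := H.apply_zero b
      rw [← e1]
      exact hA2 (0, b) x
    have h1 : ∀ b x, TamesAt (g b).1.1 (A₁ b).1 x := by
      intro b x
      have e1 : H (1, b) = (inclS θ).comp g b := H.apply_one b
      have e2 : (g b).1 = ((inclS θ).comp g b).1 := rfl
      rw [e2, ← e1]
      exact hA2 (1, b) x
    have h3 : A₀.Homotopic A₁ := ⟨{ toFun := fun q => A' q
                                    continuous_toFun := A'.continuous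
                                    map_zero_left := fun b => rfl
                                    map_one_left := fun b => rfl }⟩
    exact ⟨⟨fun b => ⟨A₁ b, mem_structures (g b).2.1 (h1 b)⟩,
      Continuous.subtype_mk A₁.continuous _⟩, (sameA h h0).trans h3⟩
  · rintro ⟨K, ⟨H⟩⟩
    obtain ⟨w, hw, hwt⟩ := liftN (contA H.toContinuousMap) (fun q => (H q).2)
    let W : C(unitInterval × B, NondegForms d X) :=
      ⟨fun q => ⟨w q, fun x v hv => nondeg_of_tames (hwt q x) v hv⟩, Continuous.subtype_mk hw _⟩
    let W₀ : C(B, NondegForms d X) := W.comp ⟨fun b => (0, b), by fun_prop⟩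
    let W₁ : C(B, NondegForms d X) := W.comp ⟨fun b => (1, b), by fun_prop⟩
    obtain ⟨g, hg⟩ := form_of hd hc K
    have h0 : TamesN W₀ J := by
      intro b x
      have e1 : H (0, b) = J b := H.apply_zero b
      rw [← e1]
      exact hwt (0, b) x
    have h1 : TamesN W₁ ((inclT θ).comp K) := by
      intro b x
      have e1 : H (1, b) = (inclT θ).comp K b := H.apply_one b
      rw [← e1]
      exact hwt (1, b) x
    have h2 : TamesN ((inclS θ).comp g) ((inclT θ).comp K) := hg
    have h3 : W₀.Homotopic W₁ := ⟨{ toFun := fun q => W q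
                                    continuous_toFun := W.continuous
                                    map_zero_left := fun b => rfl
                                    map_one_left := fun b => rfl }⟩
    exact ⟨g, ((sameN h h0).trans h3).trans (sameN h1 h2)⟩

/-- the case of one form -/
theorem tamedPoint (hd : 1 ≤ d) {θ : SForm (ES d) X} (hc : IsClosedForm θ.1)
    {τ : SForm (ES d) X} (hτ : Nondeg τ.1) {J : AStr (ES d) X} (h : ∀ x, TamesAt τ.1 J.1 x) :
    (∃ σ ∈ SympClass θ, JoinedIn (NondegForms d X) τ σ) ↔
      ∃ K ∈ Structures θ.1, Joined J K := by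
  have key := tamedHomotopy hd hc (B := Unit)
    (f := ContinuousMap.const Unit (⟨τ, hτ⟩ : NondegForms d X))
    (J := ContinuousMap.const Unit J) (fun _ x => h x)
  constructor
  · rintro ⟨σ, hσ, γ, hγ⟩
    obtain ⟨K, ⟨H⟩⟩ := key.1 ⟨ContinuousMap.const Unit ⟨σ, hσ⟩,
      ⟨{ toFun := fun q => ⟨γ q.1, hγ q.1⟩
         continuous_toFun := Continuous.subtype_mk (γ.continuous.comp continuous_fst) _
         map_zero_left := fun b => Subtype.ext γ.source
         map_one_left := fun b => Subtype.ext γ.target }⟩⟩
    refine ⟨(K ()).1, (K ()).2, ⟨⟨fun t => H (t, ()), ?_⟩, ?_, ?_⟩⟩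
    · exact H.continuous.comp (continuous_id.prodMk continuous_const)
    · exact H.apply_zero ()
    · exact H.apply_one ()
  · rintro ⟨K, hK, ⟨γ⟩⟩
    obtain ⟨g, ⟨H⟩⟩ := key.2 ⟨ContinuousMap.const Unit ⟨K, hK⟩,
      ⟨{ toFun := fun q => γ q.1
         continuous_toFun := γ.continuous.comp continuous_fst
         map_zero_left := fun b => γ.source
         map_one_left := fun b => γ.target }⟩⟩
    refine ⟨(g ()).1, (g ()).2, ⟨⟨⟨fun t => (H (t, ())).1, ?_⟩, ?_, ?_⟩, fun t => (H (t, ())).2⟩⟩
    · exact continuous_subtype_val.comp (H.continuous.comp (continuous_id.prodMk continuous_const))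
    · exact congrArg Subtype.val (H.apply_zero ())
    · exact congrArg Subtype.val (H.apply_one ())

end

end Pool.Agent.Q235.TF
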