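import Pool.Agent.Q235.TF.Lift

/-!
Project TF: homotopies of families of symplectic forms from homotopies of tameable structures.
-/

set_option autoImplicit false

open Set Filter Topology
open scoped Manifold ContDiff

noncomputable section

namespace Pool.Agent.Q235.TF

open Pool.Agent.Y501.SYP
open Pool.Agent.Q235.SZ (SForm InClass addS zeroS addS_continuous seg seg_eq' seg_zero' seg_one'
  seg_qd inClass_seg nondeg_of_tames SympClass)

section

variable {d : ℕ} {X : Type} [TopologicalSpace X] [ChartedSpace (ES d) X]
  [IsManifold 𝓘(ℝ, ES d) ∞ X]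

theorem seg_symp {τ σ σ' : SForm (ES d) X} {J : End (ES d) X} (h : InClass τ.1 σ.1)
    (h' : InClass τ.1 σ'.1) (hJ : ∀ x, TamesAt σ.1 J x) (hJ' : ∀ x, TamesAt σ'.1 J x) {t : ℝ}
    (h0 : 0 ≤ t) (h1 : t ≤ 1) : seg σ σ' t ∈ SympClass τ ∧ ∀ x, TamesAt (seg σ σ' t).1 J x := by
  have htame : ∀ x, TamesAt (seg σ σ' t).1 J x := by
    intro x v hv
    rw [seg_qd]
    have h3 : 0 < qd σ.1 J x v := hJ x v hv
    have h4 : 0 < qd σ'.1 J x v := hJ' x v hv
    rcases eq_or_lt_of_le h0 with h | h
    · rw [← h]
      linarith
    · have h5 := mul_pos h h4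
      have h6 : 0 ≤ (1 - t) * qd σ.1 J x v := mul_nonneg (by linarith) h3.le
      linarith
  refine ⟨⟨?_, fun x v hv => nondeg_of_tames (htame x) v hv⟩, htame⟩
  rw [seg_eq']
  exact inClass_seg h h' t

theorem seg_cont {B : Type} [TopologicalSpace B] {f g : B → SForm (ES d) X} {c : B → ℝ}
    (hf : Continuous f) (hg : Continuous g) (hc : Continuous c) :
    Continuous fun b => seg (f b) (g b) (c b) :=
  addS_continuous (addS_continuous continuous_const (continuous_const.sub hc) hf) hc hg

/-- two families of forms which tame the same structures are homotopic -/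
theorem same {τ : SForm (ES d) X} {B : Type} [TopologicalSpace B] (f g : C(B, SympClass τ))
    (J : B → End (ES d) X) (hf : ∀ b x, TamesAt (f b).1.1 (J b) x)
    (hg : ∀ b x, TamesAt (g b).1.1 (J b) x) : f.Homotopic g := by
  refine ⟨{ toFun := fun q => ⟨seg (f q.2).1 (g q.2).1 q.1,
              (seg_symp (f q.2).2.1 (g q.2).2.1 (hf q.2) (hg q.2) q.1.2.1 q.1.2.2).1⟩
            continuous_toFun := ?_
            map_zero_left := fun b => Subtype.ext (seg_zero' _ _)
            map_one_left := fun b => Subtype.ext (seg_one' _ _) }⟩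
  refine Continuous.subtype_mk ?_ _
  exact seg_cont (continuous_subtype_val.comp (f.continuous.comp continuous_snd))
    (continuous_subtype_val.comp (g.continuous.comp continuous_snd))
    (continuous_subtype_val.comp continuous_fst)

variable [CompactSpace X]

omit [CompactSpace X] in
theorem fd : FiniteDimensional ℝ (ES d) :=
  (EuclideanSpace.basisFun (Fin d) ℝ).toBasis.finiteDimensional_of_finite

/-- families of tameable structures are tamed by families of symplectic forms -/
theorem liftC {τ : SForm (ES d) X} (hc : IsClosedForm τ.1) {B : Type} [TopologicalSpace B]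
    [CompactSpace B] [T2Space B] {J : B → End (ES d) X} (hJ : ContJ J)
    (hT : ∀ b, Tameable τ (J b)) : ∃ w : C(B, SympClass τ), ∀ b x, TamesAt (w b).1.1 (J b) x := by
  have := fd (d := d)
  obtain ⟨w, hw, h⟩ := lift hc hJ hT
  exact ⟨⟨fun b => ⟨w b, (h b).1, fun x v hv => nondeg_of_tames ((h b).2 x) v hv⟩,
    Continuous.subtype_mk hw _⟩, fun b => (h b).2⟩

/-- families of symplectic forms are homotopic if they tame homotopic families of tameable
structures -/
theorem homotopic {τ : SForm (ES d) X} (hc : IsClosedForm τ.1) {B : Type} [TopologicalSpace B]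
    [CompactSpace B] [T2Space B] (f g : C(B, SympClass τ)) (J : unitInterval × B → End (ES d) X)
    (hJ : ContJ J) (hT : ∀ q, Tameable τ (J q)) (hf : ∀ b x, TamesAt (f b).1.1 (J (0, b)) x)
    (hg : ∀ b x, TamesAt (g b).1.1 (J (1, b)) x) : f.Homotopic g := by
  obtain ⟨w, hw⟩ := liftC hc hJ hT
  let w₀ : C(B, SympClass τ) := w.comp ⟨fun b => (0, b), by fun_prop⟩
  let w₁ : C(B, SympClass τ) := w.comp ⟨fun b => (1, b), by fun_prop⟩
  have h1 : f.Homotopic w₀ := same f w₀ (fun b => J (0, b)) hf (fun b => hw (0, b))
  have h2 : w₁.Homotopic g := same w₁ g (fun b => J (1, b)) (fun b => hw (1, b)) hg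
  have h3 : w₀.Homotopic w₁ := ⟨{ toFun := fun q => w q
                                  continuous_toFun := w.continuous
                                  map_zero_left := fun b => rfl
                                  map_one_left := fun b => rfl }⟩
  exact (h1.trans h3).trans h2

end

end Pool.Agent.Q235.TF
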