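import Pool.Agent.Q235.TF.Open
import Pool.Agent.Q235.SZ.Star

/-!
Project TF: compact families of tameable structures lift to families of taming forms.
-/

set_option autoImplicit false

open Set Filter Topology
open scoped Manifold ContDiff

noncomputable section

namespace Pool.Agent.Q235.TF

open Pool.Agent.Y501.SYP
open Pool.Agent.Q235.SZ (SForm InClass addS zeroS addS_continuous Ex ex_zero ex_add inClass_add
  seg seg_eq' seg_zero' seg_one' seg_qd inClass_seg nondeg_of_tames SympClass)

section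

variable {V : Type} [NormedAddCommGroup V] [NormedSpace ℝ V]
  {X : Type} [TopologicalSpace X] [ChartedSpace V X] [IsManifold 𝓘(ℝ, V) ∞ X]

/-- the class of `τ` contains a form taming `J` -/
def Tameable (τ : SForm V X) (J : End V X) : Prop :=
  ∃ σ : SForm V X, InClass τ.1 σ.1 ∧ ∀ x, TamesAt σ.1 J x

theorem qd_addS (σ η : SForm V X) (t : ℝ) (J : End V X) (x : X) (v : TangentSpace 𝓘(ℝ, V) x) :
    qd (addS σ t η).1 J x v = qd σ.1 J x v + t * qd η.1 J x v := rfl

theorem qd_zeroS (J : End V X) (x : X) (v : TangentSpace 𝓘(ℝ, V) x) :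
    qd (zeroS (V := V) (X := X)).1 J x v = 0 := rfl

theorem inClass_self {τ : SForm V X} (hc : IsClosedForm τ.1) : InClass τ.1 τ.1 := by
  obtain ⟨_, α, hα, hαd⟩ := ex_zero (V := V) (X := X)
  refine ⟨hc, α, hα, fun U φ hφ p hp => ?_⟩
  refine (hαd U φ hφ p hp).trans ?_
  ext m
  change (0 : ℝ) = (τ.1 (φ p) - τ.1 (φ p)) _
  rw [sub_self]
  rfl

variable [FiniteDimensional ℝ V] [CompactSpace X]

theorem lift {τ : SForm V X} (hc : IsClosedForm τ.1) {B : Type} [TopologicalSpace B]
    [CompactSpace B] [T2Space B] {J : B → End V X} (hJ : ContJ J)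
    (hT : ∀ b, Tameable τ (J b)) : ∃ w : B → SForm V X, Continuous w ∧
      ∀ b, InClass τ.1 (w b).1 ∧ ∀ x, TamesAt (w b).1 (J b) x := by
  have main : ∃ (s : B → ℝ) (R : B → SForm V X), Continuous s ∧ Continuous R ∧
      (∀ b, Ex (addS (R b) (-(s b)) τ)) ∧ (∀ b, 0 ≤ s b) ∧
      (∀ (b : B) (x : X) (v : TangentSpace 𝓘(ℝ, V) x), 0 ≤ qd (R b).1 (J b) x v) ∧
      ∀ b ∈ (univ : Set B), 0 < s b ∧ ∀ x, TamesAt (R b).1 (J b) x := by
    refine (isCompact_univ : IsCompact (univ : Set B)).induction_on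
      (p := fun S => ∃ (s : B → ℝ) (R : B → SForm V X), Continuous s ∧ Continuous R ∧
        (∀ b, Ex (addS (R b) (-(s b)) τ)) ∧ (∀ b, 0 ≤ s b) ∧
        (∀ (b : B) (x : X) (v : TangentSpace 𝓘(ℝ, V) x), 0 ≤ qd (R b).1 (J b) x v) ∧
        ∀ b ∈ S, 0 < s b ∧ ∀ x, TamesAt (R b).1 (J b) x) ?_ ?_ ?_ ?_
    · refine ⟨fun _ => 0, fun _ => zeroS, continuous_const, continuous_const, fun _ => ?_,
        fun _ => le_rfl, fun b x v => le_rfl, fun b hb => absurd hb (notMem_empty b)⟩
      have h1 : addS (zeroS (V := V) (X := X)) (-(0 : ℝ)) τ = zeroS := by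
        refine Subtype.ext (funext fun x => ?_)
        have key : ∀ a : V [⋀^Fin 2]→L[ℝ] ℝ, 0 + (-(0 : ℝ)) • a = 0 := by
          intro a
          rw [neg_zero, zero_smul, add_zero]
        exact key _
      rw [h1]
      exact ex_zero
    · rintro S T hST ⟨s, R, h1, h2, h3, h4, h5, h6⟩
      exact ⟨s, R, h1, h2, h3, h4, h5, fun b hb => h6 b (hST hb)⟩
    · rintro S T ⟨s, R, h1, h2, h3, h4, h5, h6⟩ ⟨s', R', h1', h2', h3', h4', h5', h6'⟩
      refine ⟨fun b => s b + s' b, fun b => addS (R b) 1 (R' b), h1.add h1',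
        addS_continuous h2 continuous_const h2', fun b => ?_, fun b => add_nonneg (h4 b) (h4' b),
        fun b x v => ?_, fun b hb => ?_⟩
      · have h7 := ex_add 1 (h3 b) (h3' b)
        have h8 : addS (addS (R b) (-(s b)) τ) 1 (addS (R' b) (-(s' b)) τ) =
            addS (addS (R b) 1 (R' b)) (-(s b + s' b)) τ := by
          refine Subtype.ext (funext fun x => ?_)
          have key : ∀ a b c : V [⋀^Fin 2]→L[ℝ] ℝ, ∀ t t' : ℝ,
              a + (-t) • c + (1 : ℝ) • (b + (-t') • c) = a + (1 : ℝ) • b + (-(t + t')) • c := by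
            intro a b c t t'
            module
          exact key _ _ _ _ _
        rw [← h8]
        exact h7
      · rw [qd_addS, one_mul]
        exact add_nonneg (h5 b x v) (h5' b x v)
      · rcases hb with h | h
        · refine ⟨add_pos_of_pos_of_nonneg (h6 b h).1 (h4' b), fun x v hv => ?_⟩
          rw [qd_addS, one_mul]
          exact add_pos_of_pos_of_nonneg ((h6 b h).2 x v hv) (h5' b x v)
        · refine ⟨add_pos_of_nonneg_of_pos (h4 b) (h6' b h).1, fun x v hv => ?_⟩
          rw [qd_addS, one_mul]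
          exact add_pos_of_nonneg_of_pos (h5 b x v) ((h6' b h).2 x v hv)
    · intro b₀ _
      obtain ⟨σ, hσ, hσJ⟩ := hT b₀
      have hO : IsOpen {b : B | ∀ x, TamesAt σ.1 (J b) x} := tames_open' hJ σ
      obtain ⟨u, hu0, hu1, hu01⟩ := exists_continuous_zero_one_of_isClosed hO.isClosed_compl
        (isClosed_singleton : IsClosed ({b₀} : Set B))
        (Set.disjoint_singleton_right.2 (fun h => h hσJ))
      have hub₀ : u b₀ = 1 := hu1 rfl
      have hmem : ∀ b, u b ≠ 0 → ∀ x, TamesAt σ.1 (J b) x := by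
        intro b hb
        by_contra hn
        exact hb (hu0 hn)
      have hval : ∀ (b : B) (x : X) (v : TangentSpace 𝓘(ℝ, V) x),
          qd (addS zeroS (u b) σ).1 (J b) x v = u b * qd σ.1 (J b) x v := by
        intro b x v
        rw [qd_addS, qd_zeroS, zero_add]
      refine ⟨{b | u b ≠ 0}, ?_, u, fun b => addS zeroS (u b) σ, u.continuous,
        addS_continuous continuous_const u.continuous continuous_const, fun b => ?_,
        fun b => (hu01 b).1, fun b x v => ?_, fun b hb => ⟨?_, fun x v hv => ?_⟩⟩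
      · refine mem_nhdsWithin_of_mem_nhds
          ((isOpen_ne_fun u.continuous continuous_const).mem_nhds ?_)
        change u b₀ ≠ 0
        rw [hub₀]
        exact one_ne_zero
      · obtain ⟨hσc, α, hα, hαd⟩ := hσ
        have h8 : addS (addS zeroS (u b) σ) (-(u b)) τ =
            addS zeroS (u b) (addS σ (-1) τ) := by
          refine Subtype.ext (funext fun x => ?_)
          have key : ∀ a c : V [⋀^Fin 2]→L[ℝ] ℝ, ∀ t : ℝ,
              0 + t • a + (-t) • c = 0 + t • (a + (-1 : ℝ) • c) := by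
            intro a c t
            module
          exact key _ _ _
        rw [h8]
        refine ex_add _ ex_zero ⟨Pool.Agent.Q235.SZ.closed_add _ hσc hc, α, hα, ?_⟩
        intro U φ hφ p hp
        refine (hαd U φ hφ p hp).trans ?_
        ext m
        change (σ.1 (φ p)) _ - (τ.1 (φ p)) _ = (σ.1 (φ p)) _ + (-1) * (τ.1 (φ p)) _
        ring
      · rw [hval]
        by_cases h : u b = 0
        · rw [h, zero_mul]
        · refine mul_nonneg (hu01 b).1 ?_
          by_cases hv : v = 0
          · subst hv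
            have h6 : qd σ.1 (J b) x 0 = 0 := (σ.1 x).map_coord_zero 0 rfl
            rw [h6]
          · exact (hmem b h x v hv).le
      · exact lt_of_le_of_ne (hu01 b).1 (Ne.symm hb)
      · rw [hval]
        exact mul_pos (lt_of_le_of_ne (hu01 b).1 (Ne.symm hb)) (hmem b hb x v hv)
  obtain ⟨s, R, h1, h2, h3, _, _, h6⟩ := main
  refine ⟨fun b => addS τ (s b)⁻¹ (addS (R b) (-(s b)) τ),
    addS_continuous continuous_const (h1.inv₀ fun b => ((h6 b (mem_univ b)).1).ne')
      (addS_continuous h2 h1.neg continuous_const),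
    fun b => ⟨inClass_add _ (inClass_self hc) (h3 b), fun x v hv => ?_⟩⟩
  have h7 := (h6 b (mem_univ b)).1
  have h8 := (h6 b (mem_univ b)).2 x v hv
  rw [qd_addS, qd_addS]
  have h9 : qd τ.1 (J b) x v + (s b)⁻¹ * (qd (R b).1 (J b) x v + -(s b) * qd τ.1 (J b) x v) =
      (s b)⁻¹ * qd (R b).1 (J b) x v := by
    field_simp
    ring
  rw [h9]
  exact mul_pos (inv_pos.2 h7) h8

end

end Pool.Agent.Q235.TF
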