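import Pool.Agent.Y501.SY.Bridge
import Pool.Agent.Y363.SY.Local
import Pool.Agent.Y484.SY.Gen

/-!
Project TF: a continuous almost complex structure is tamed at each point by a smooth two-form.
-/

set_option autoImplicit false

open Set Filter Topology MeasureTheory
open scoped Manifold ContDiff

noncomputable section

namespace Pool.Agent.Y501.SYP

section

variable {d : ℕ} {X : Type} [TopologicalSpace X] [ChartedSpace (ES d) X]
  [IsManifold 𝓘(ℝ, ES d) ∞ X]

attribute [local instance] cs mf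

theorem TFlocal_form [T2Space X] {J : End (ES d) X} (hJ : IsAlmostComplex J) (z : X) :
    ∃ σ : Form (ES d) X 2, IsSmooth σ ∧ TamesAt σ J z := by
  obtain ⟨g, B, hg, h⟩ := Pool.Agent.Y363.SY.t_LOCAL d X J (ac_of J hJ) z
  refine ⟨_, (smooth_iff _).2 ?_, (tames_iff _ J z).2 h⟩
  refine SY.IsSmooth.sum _ fun j _ => SY.IsSmooth.sum _ fun k _ => SY.IsSmooth.smul ?_ _
  have h1 := (Pool.Agent.Y484.SY.t_GEN d X (fun _ => 1) (g j) (g k) (SY.SmoothFun.const 1) (hg j)
    (hg k)).2.1
  have h2 : SY.hdfdg (d := d) (fun _ => (1 : ℝ)) (g j) (g k) = SY.dfdg (g j) (g k) := by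
    funext x
    exact one_smul ℝ _
  rwa [h2] at h1

end

end Pool.Agent.Y501.SYP
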