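import Pool.Agent.Q235.TF.Equiv
import Pool.Agent.Q235.MO.Fin

/-!
Project TF: diffeomorphisms and paths of tamed structures.
-/

set_option autoImplicit false

open Set Filter Topology
open scoped Manifold ContDiff InnerProductSpace

noncomputable section

namespace Pool.Agent.Q235.TF

open Pool.Agent.Y501.SYP
open Pool.Agent.Q235.SZ (SForm InClass SympClass Nondeg addS seg)
open Pool.Agent.Q235.MO

section

variable {d : ℕ} {X : Type} [TopologicalSpace X] [ChartedSpace (ES d) X]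
  [IsManifold 𝓘(ℝ, ES d) ∞ X] [CompactSpace X] [T2Space X] {τ : SForm (ES d) X}

omit [CompactSpace X] [T2Space X] in
theorem seg_addS (σ σ' : SForm (ES d) X) (t : ℝ) :
    (addS σ t (addS σ' (-1) σ)).1 = (seg σ σ' t).1 := by
  funext x
  ext v
  change σ.1 x v + t * (σ'.1 x v + (-1 : ℝ) * σ.1 x v) =
    (0 + (1 - t) * σ.1 x v) + t * σ'.1 x v
  ring

/-- Moser's theorem for two forms which tame the same structure -/
theorem rel_tame {σ σ' : SForm (ES d) X} {J : End (ES d) X} (h : InClass τ.1 σ.1)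
    (h' : InClass τ.1 σ'.1) (hJ : ∀ x, TamesAt σ.1 J x) (hJ' : ∀ x, TamesAt σ'.1 J x) :
    Rel σ.1 σ'.1 := by
  have hfd : FiniteDimensional ℝ (ES d) := fd (d := d)
  refine rel_seg h h' fun t ht => ?_
  rw [seg_addS]
  exact (seg_symp h h' hJ hJ' ht.1 ht.2).1.2

/-- Moser's theorem for paths of symplectic forms -/
theorem rel_of_path (c : C(unitInterval, SympClass τ)) : Rel (c 0).1.1 (c 1).1.1 := by
  have hfd : FiniteDimensional ℝ (ES d) := fd (d := d)
  obtain ⟨J, hJ, -, hJ2, -⟩ := realize c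
  have h1 : ∀ t₀ : unitInterval, ∀ᶠ t in 𝓝 t₀,
      Rel (c t₀).1.1 (c t).1.1 ∧ Rel (c t).1.1 (c t₀).1.1 := by
    intro t₀
    filter_upwards [(tames_open' hJ (c t₀).1).mem_nhds (hJ2 t₀)] with t ht
    exact ⟨rel_tame (c t₀).2.1 (c t).2.1 ht (hJ2 t), rel_tame (c t).2.1 (c t₀).2.1 (hJ2 t) ht⟩
  have h2 : IsTrans unitInterval
      (fun t t' : unitInterval => Rel (V := ES d) (X := X) (c t).1.1 (c t').1.1) :=
    ⟨fun a b c' h h' => rel_trans h h'⟩
  exact PreconnectedSpace.induction₂' _ h1 h2 0 1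

omit [CompactSpace X] [T2Space X] in
theorem nondeg_pull {σ : SForm (ES d) X} (hσ : Nondeg σ.1) {f : X → X} (hf : IsDiffeo (ES d) f) :
    Nondeg (pullS f hf.1 σ).1 := by
  obtain ⟨h1, g, h2, h3, h4⟩ := hf
  intro x v hv
  have hfx : MDifferentiableAt 𝓘(ℝ, ES d) 𝓘(ℝ, ES d) f x := (h1 x).mdifferentiableAt (by simp)
  have hgx : MDifferentiableAt 𝓘(ℝ, ES d) 𝓘(ℝ, ES d) g (f x) :=
    (h2 (f x)).mdifferentiableAt (by simp)
  have e1 : ∀ u : ES d, mfderiv 𝓘(ℝ, ES d) 𝓘(ℝ, ES d) g (f x)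
      (mfderiv 𝓘(ℝ, ES d) 𝓘(ℝ, ES d) f x u) = u := by
    intro u
    have hc := mfderiv_comp x hgx hfx
    have hid : g ∘ f = id := funext h3
    rw [hid, mfderiv_id] at hc
    exact (congrArg (fun L : ES d →L[ℝ] ES d => L u) hc).symm
  have e2 : ∀ w : ES d, mfderiv 𝓘(ℝ, ES d) 𝓘(ℝ, ES d) f x
      (mfderiv 𝓘(ℝ, ES d) 𝓘(ℝ, ES d) g (f x) w) = w := by
    intro w
    have h5 : MDifferentiableAt 𝓘(ℝ, ES d) 𝓘(ℝ, ES d) f (g (f x)) := by
      rw [h3]
      exact hfx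
    have hc := mfderiv_comp (f x) h5 hgx
    have hid : f ∘ g = id := funext h4
    rw [hid, mfderiv_id, h3] at hc
    exact (congrArg (fun L : ES d →L[ℝ] ES d => L w) hc).symm
  have h6 : (mfderiv 𝓘(ℝ, ES d) 𝓘(ℝ, ES d) f x v : ES d) = 0 := by
    refine hσ (f x) _ fun w => ?_
    have h7 := hv (mfderiv 𝓘(ℝ, ES d) 𝓘(ℝ, ES d) g (f x) w : ES d)
    have h8 : (σ.1 (f x)) ![mfderiv 𝓘(ℝ, ES d) 𝓘(ℝ, ES d) f x v,
        mfderiv 𝓘(ℝ, ES d) 𝓘(ℝ, ES d) f x (mfderiv 𝓘(ℝ, ES d) 𝓘(ℝ, ES d) g (f x) w)] = 0 := by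
      refine Eq.trans ?_ h7
      change _ = (σ.1 (f x)) _
      congr 1
      funext i
      fin_cases i <;> rfl
    have h10 := congrArg (fun u : ES d => (show ES d [⋀^Fin 2]→L[ℝ] ℝ from σ.1 (f x))
      ![(mfderiv 𝓘(ℝ, ES d) 𝓘(ℝ, ES d) f x v : ES d), u]) (e2 w)
    exact h10.symm.trans h8
  have h9 := e1 v
  rw [h6] at h9
  exact h9.symm.trans (map_zero (mfderiv 𝓘(ℝ, ES d) 𝓘(ℝ, ES d) g (f x)))

omit [IsManifold 𝓘(ℝ, ES d) ∞ X] [CompactSpace X] [T2Space X] in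
theorem diffeo_slice {K L : ℝ × X → X} (hK : SmFam (V := ES d) K) (hL : SmFam (V := ES d) L)
    (h1 : ∀ s x, L (s, K (s, x)) = x) (h2 : ∀ s x, K (s, L (s, x)) = x) (s : ℝ) :
    IsDiffeo (ES d) fun x => K (s, x) :=
  ⟨slice_smooth hK s, fun x => L (s, x), slice_smooth hL s, h1 s, h2 s⟩

/-- Let `J₀` be tamed by `τ` and `J₁` by `f ^* τ`. -/
theorem tamedPaths (hd : 1 ≤ d) (hc : IsClosedForm τ.1) (hτ : Nondeg τ.1) {f : X → X}
    (hf : IsDiffeo (ES d) f) {J₀ J₁ : AStr (ES d) X} (h0 : ∀ x, TamesAt τ.1 J₀.1 x)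
    (h1 : ∀ x, TamesAt (pull f τ.1) J₁.1 x) :
    (∃ g : X → X, (IsDiffeo (ES d) g ∧ pull g τ.1 = τ.1) ∧ Isotopic (ES d) g f) ↔
      InClass τ.1 (pull f τ.1) ∧ JoinedIn (Structures τ.1) J₀ J₁ := by
  have hfd : FiniteDimensional ℝ (ES d) := fd (d := d)
  have hττ : τ ∈ SympClass τ := ⟨inClass_self hc, hτ⟩
  constructor
  · rintro ⟨g, ⟨-, hg⟩, K, L, hK, hL, k1, k2, k3, k4⟩
    have hK0 : pull (fun x => K (0, x)) τ.1 = τ.1 := by
      have h2 : (fun x => K (0, x)) = g := funext k3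
      rw [h2]
      exact hg
    have hK1 : (fun x => K (1, x)) = f := funext k4
    have hcl : ∀ s, InClass τ.1 (pull (fun x => K (s, x)) τ.1) := inClass_fam hK τ.2 hc hK0
    have hnd : ∀ s, Nondeg (pullS (fun x => K (s, x)) (slice_smooth hK s) τ).1 := fun s =>
      nondeg_pull hτ (diffeo_slice hK hL k1 k2 s)
    have hfcl : InClass τ.1 (pull f τ.1) := by
      have h2 := hcl 1
      rwa [hK1] at h2
    refine ⟨hfcl, ?_⟩
    let c : C(unitInterval, SympClass τ) :=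
      ⟨fun s => ⟨pullS (fun x => K ((s : ℝ), x)) (slice_smooth hK s) τ, hcl s, hnd s⟩,
        Continuous.subtype_mk ((pull_continuous hK τ).comp continuous_subtype_val) _⟩
    have hJ0 : J₀ ∈ Structures τ.1 := mem_structures hττ.1 h0
    have hJ1 : J₁ ∈ Structures τ.1 := mem_structures (σ := pullS f hf.1 τ) hfcl h1
    have hnf : Nondeg (pullS f hf.1 τ).1 := nondeg_pull hτ hf
    have hp : (ContinuousMap.const Unit (⟨τ, hττ⟩ : SympClass τ)).Homotopic
        (ContinuousMap.const Unit (⟨pullS f hf.1 τ, hfcl, hnf⟩ : SympClass τ)) := by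
      refine ⟨{ toFun := fun q => c q.1
                continuous_toFun := c.continuous.comp continuous_fst
                map_zero_left := fun b => ?_
                map_one_left := fun b => ?_ }⟩
      · exact Subtype.ext (Subtype.ext hK0)
      · refine Subtype.ext (Subtype.ext ?_)
        change pull (fun x => K (1, x)) τ.1 = pull f τ.1
        rw [hK1]
    have hh := str_homotopic (J := ContinuousMap.const Unit (⟨J₀, hJ0⟩ : Structures τ.1))
      (J' := ContinuousMap.const Unit (⟨J₁, hJ1⟩ : Structures τ.1)) (fun _ x => h0 x)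
      (fun _ x => h1 x) hp
    obtain ⟨H⟩ := hh
    refine ⟨⟨⟨fun t => (H (t, ())).1, ?_⟩, ?_, ?_⟩, fun t => (H (t, ())).2⟩
    · exact continuous_subtype_val.comp (H.continuous.comp (continuous_id.prodMk continuous_const))
    · have e1 : H (0, ()) = ⟨J₀, hJ0⟩ := H.apply_zero ()
      exact congrArg Subtype.val e1
    · have e1 : H (1, ()) = ⟨J₁, hJ1⟩ := H.apply_one ()
      exact congrArg Subtype.val e1
  · rintro ⟨hfcl, γ, hγ⟩
    let J : C(unitInterval, Structures τ.1) :=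
      ⟨fun t => ⟨γ t, hγ t⟩, Continuous.subtype_mk γ.continuous _⟩
    obtain ⟨w, hw⟩ := form_of hd hc J
    have hw0 : ∀ x, TamesAt (w 0).1.1 J₀.1 x := by
      intro x
      have h2 := hw 0 x
      have h3 : (J 0).1 = J₀ := γ.source
      rwa [h3] at h2
    have hw1 : ∀ x, TamesAt (w 1).1.1 J₁.1 x := by
      intro x
      have h2 := hw 1 x
      have h3 : (J 1).1 = J₁ := γ.target
      rwa [h3] at h2
    have r1 : Rel τ.1 (w 0).1.1 := rel_tame hττ.1 (w 0).2.1 h0 hw0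
    have r2 : Rel (w 0).1.1 (w 1).1.1 := rel_of_path w
    have r3 : Rel (w 1).1.1 (pullS f hf.1 τ).1 :=
      rel_tame (w 1).2.1 (σ' := pullS f hf.1 τ) hfcl hw1 h1
    exact sympl_of_rel hf (rel_trans (rel_trans r1 r2) r3)

end

end Pool.Agent.Q235.TF
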