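import Pool.Agent.Q235.TF.Equiv
import Pool.Agent.Q235.TF.LocForm

/-!
Project TF: families of nondegenerate forms and families of almost complex structures.
-/

set_option autoImplicit false

open Set Filter Topology
open scoped Manifold ContDiff InnerProductSpace

noncomputable section

namespace Pool.Agent.Q235.TF

open Pool.Agent.Y501.SYP
open Pool.Agent.Q235.SZ (SForm InClass SympClass Nondeg addS zeroS addS_continuous joint seg
  seg_zero' seg_one' seg_qd nondeg_of_tames)

section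

variable {d : ℕ} {X : Type} [TopologicalSpace X] [ChartedSpace (ES d) X]
  [IsManifold 𝓘(ℝ, ES d) ∞ X]

/-- families of nondegenerate forms tame continuous families of almost complex structures -/
theorem realizeN [CompactSpace X] [T2Space X] {B : Type} [TopologicalSpace B]
    {s : B → SForm (ES d) X} (hs : Continuous s) (hnd : ∀ b, Nondeg (s b).1) :
    ∃ J : B → End (ES d) X, ContJ J ∧ (∀ b, IsAlmostComplex (J b)) ∧
      (∀ b x, TamesAt (s b).1 (J b) x) ∧
      ∀ b x u v, (s b).1 x ![J b x u, J b x v] = (s b).1 x ![u, v] := by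
  have hfd := fd (d := d)
  have hpr : ProperSpace (ES d) := FiniteDimensional.proper ℝ (ES d)
  obtain ⟨n, F, hF, -, hinj⟩ := exists_embedding_euclidean_of_compact (I := 𝓘(ℝ, ES d))
    (M := X)
  have hex : ∀ (b : B) (x : X), ∃ J : ES d →L[ℝ] ES d,
      IsPolar (dF (V := ES d) F x) ((s b).1 x) J ∧
        ∀ v ≠ 0, 0 < (((s b).1 x) : ES d [⋀^Fin 2]→L[ℝ] ℝ) ![v, J v] := fun b x =>
    polar_exists (V := ES d) (dF (V := ES d) F x) (hinj x) ((s b).1 x) (hnd b x)
  choose J hJ hJp using hex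
  have hcont : ∀ x₀ : X, ContinuousOn (fun q : B × ES d =>
      inL (V := ES d) (X := X) (J q.1) x₀ q.2) (univ ×ˢ (chartAt (ES d) x₀).target) := by
    intro x₀ q₀ hq₀
    have hopen : IsOpen ((univ : Set B) ×ˢ (chartAt (ES d) x₀).target) :=
      isOpen_univ.prod (chartAt (ES d) x₀).open_target
    refine ContinuousAt.continuousWithinAt ?_
    refine polar_cont (D := fun q : B × ES d => dFc (V := ES d) F x₀ q.2)
      (s := fun q : B × ES d => pb (chartAt (ES d) x₀).symm (s q.1).1 q.2) ?_ ?_ ?_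
      (dFc_inj hinj x₀ hq₀.2) (pb_nondeg (hnd q₀.1) x₀ hq₀.2)
    · exact ContinuousAt.comp (g := dFc (V := ES d) F x₀) (f := fun q : B × ES d => q.2)
        ((dFc_cont hF x₀).continuousAt ((chartAt (ES d) x₀).open_target.mem_nhds hq₀.2))
        continuousAt_snd
    · exact (joint hs x₀).continuousAt (hopen.mem_nhds hq₀)
    · filter_upwards [hopen.mem_nhds hq₀] with q hq
      exact polar_chart x₀ hq.2 (hJ q.1 _)
  refine ⟨J, fun x₀ v => ?_, fun b => ⟨fun x v => (hJ b x).sq v, fun x₀ v => ?_⟩,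
    fun b x v hv => hJp b x v hv, fun b x u v => (hJ b x).pres u v⟩
  · exact (hcont x₀).clm_apply continuousOn_const
  · have h1 : ContinuousOn (fun p : ES d => ((b, p) : B × ES d)) (chartAt (ES d) x₀).target := by
      fun_prop
    have h2 := ((hcont x₀).clm_apply (continuousOn_const (c := v))).comp h1
      (fun p hp => mk_mem_prod (mem_univ b) hp)
    exact h2

/-- the form `χ σ` -/
def mulS {χ : X → ℝ} (hχ : ContMDiff 𝓘(ℝ, ES d) 𝓘(ℝ, ℝ) ∞ χ) (σ : SForm (ES d) X) :
    SForm (ES d) X :=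
  ⟨fun x => χ x • σ.1 x, fun U φ hφ => by
    have h1 : ContDiffOn ℝ ∞ (χ ∘ φ) U := contMDiffOn_iff_contDiffOn.1 (hχ.comp_contMDiffOn hφ.2)
    exact h1.smul (σ.2 U φ hφ)⟩

omit [IsManifold 𝓘(ℝ, ES d) ∞ X] in
theorem qd_mulS {χ : X → ℝ} (hχ : ContMDiff 𝓘(ℝ, ES d) 𝓘(ℝ, ℝ) ∞ χ) (σ : SForm (ES d) X)
    (J : End (ES d) X) (x : X) (v : TangentSpace 𝓘(ℝ, ES d) x) :
    qd (mulS hχ σ).1 J x v = χ x * qd σ.1 J x v := rfl

omit [IsManifold 𝓘(ℝ, ES d) ∞ X] in
theorem nn_of_tames {σ : SForm (ES d) X} {J : End (ES d) X} {x : X} (h : TamesAt σ.1 J x)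
    (v : TangentSpace 𝓘(ℝ, ES d) x) : 0 ≤ qd σ.1 J x v := by
  by_cases hv : v = 0
  · subst hv
    have h6 : qd σ.1 J x 0 = 0 := (σ.1 x).map_coord_zero 0 rfl
    rw [h6]
  · exact (h v hv).le

variable [CompactSpace X] [T2Space X]

/-- each almost complex structure is tamed by a smooth two-form -/
theorem exists_tame {J : End (ES d) X} (hJ : IsAlmostComplex J) :
    ∃ σ : SForm (ES d) X, ∀ x, TamesAt σ.1 J x := by
  have hfd := fd (d := d)
  have hcJ : ContJ (B := Unit) (fun _ => J) := by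
    intro x₀ v
    exact (hJ.cont x₀ v).comp continuous_snd.continuousOn fun q hq => hq.2
  have main : ∃ σ : SForm (ES d) X, (∀ x v, 0 ≤ qd σ.1 J x v) ∧
      ∀ x ∈ (univ : Set X), TamesAt σ.1 J x := by
    refine (isCompact_univ : IsCompact (univ : Set X)).induction_on
      (p := fun S => ∃ σ : SForm (ES d) X, (∀ x v, 0 ≤ qd σ.1 J x v) ∧
        ∀ x ∈ S, TamesAt σ.1 J x) ?_ ?_ ?_ ?_
    · exact ⟨zeroS, fun x v => le_rfl, fun x hx => absurd hx (notMem_empty x)⟩
    · rintro S T hST ⟨σ, h1, h2⟩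
      exact ⟨σ, h1, fun x hx => h2 x (hST hx)⟩
    · rintro S T ⟨σ, h1, h2⟩ ⟨σ', h1', h2'⟩
      refine ⟨addS σ 1 σ', fun x v => ?_, fun x hx v hv => ?_⟩
      · rw [qd_addS, one_mul]
        exact add_nonneg (h1 x v) (h1' x v)
      · rw [qd_addS, one_mul]
        rcases hx with h | h
        · exact add_pos_of_pos_of_nonneg (h2 x h v hv) (h1' x v)
        · exact add_pos_of_nonneg_of_pos (h1 x v) (h2' x h v hv)
    · intro z _
      obtain ⟨σ₀, hσ, hz⟩ := TFlocal_form hJ z
      let σ : SForm (ES d) X := ⟨σ₀, hσ⟩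
      have hO : IsOpen {x : X | TamesAt σ.1 J x} := by
        have h1 := tames_open (B := Unit) hcJ σ
        exact h1.preimage (f := fun x : X => (((), x) : Unit × X)) (by fun_prop)
      obtain ⟨f, hf⟩ := (SmoothBumpFunction.nhds_basis_support (I := 𝓘(ℝ, ES d))
        (hO.mem_nhds hz)).ex_mem
      have hfs : ∀ x, f x ≠ 0 → TamesAt σ.1 J x := fun x hx => hf (subset_tsupport _ hx)
      refine ⟨{x | f x ≠ 0}, mem_nhdsWithin_of_mem_nhds
        ((isOpen_ne_fun f.contMDiff.continuous continuous_const).mem_nhds ?_),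
        mulS f.contMDiff σ, fun x v => ?_, fun x hx v hv => ?_⟩
      · change f z ≠ 0
        rw [f.eq_one]
        exact one_ne_zero
      · rw [qd_mulS]
        by_cases h : f x = 0
        · rw [h, zero_mul]
        · exact mul_nonneg f.nonneg (nn_of_tames (hfs x h) v)
      · rw [qd_mulS]
        exact mul_pos (lt_of_le_of_ne f.nonneg (Ne.symm hx)) (hfs x hx v hv)
  obtain ⟨σ, -, h⟩ := main
  exact ⟨σ, fun x => h x (mem_univ x)⟩

/-- compact families of almost complex structures are tamed by families of forms -/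
theorem liftN {B : Type} [TopologicalSpace B] [CompactSpace B] [T2Space B]
    {J : B → End (ES d) X} (hJ : ContJ J) (hac : ∀ b, IsAlmostComplex (J b)) :
    ∃ w : B → SForm (ES d) X, Continuous w ∧ ∀ b x, TamesAt (w b).1 (J b) x := by
  have hfd := fd (d := d)
  have main : ∃ R : B → SForm (ES d) X, Continuous R ∧ (∀ b x v, 0 ≤ qd (R b).1 (J b) x v) ∧
      ∀ b ∈ (univ : Set B), ∀ x, TamesAt (R b).1 (J b) x := by
    refine (isCompact_univ : IsCompact (univ : Set B)).induction_on
      (p := fun S => ∃ R : B → SForm (ES d) X, Continuous R ∧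
        (∀ b x v, 0 ≤ qd (R b).1 (J b) x v) ∧ ∀ b ∈ S, ∀ x, TamesAt (R b).1 (J b) x) ?_ ?_ ?_ ?_
    · exact ⟨fun _ => zeroS, continuous_const, fun b x v => le_rfl,
        fun b hb => absurd hb (notMem_empty b)⟩
    · rintro S T hST ⟨R, h1, h2, h3⟩
      exact ⟨R, h1, h2, fun b hb => h3 b (hST hb)⟩
    · rintro S T ⟨R, h1, h2, h3⟩ ⟨R', h1', h2', h3'⟩
      refine ⟨fun b => addS (R b) 1 (R' b), addS_continuous h1 continuous_const h1',
        fun b x v => ?_, fun b hb x v hv => ?_⟩
      · rw [qd_addS, one_mul]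
        exact add_nonneg (h2 b x v) (h2' b x v)
      · rw [qd_addS, one_mul]
        rcases hb with h | h
        · exact add_pos_of_pos_of_nonneg (h3 b h x v hv) (h2' b x v)
        · exact add_pos_of_nonneg_of_pos (h2 b x v) (h3' b h x v hv)
    · intro b₀ _
      obtain ⟨σ, hσJ⟩ := exists_tame (hac b₀)
      have hO : IsOpen {b : B | ∀ x, TamesAt σ.1 (J b) x} := tames_open' hJ σ
      obtain ⟨u, hu0, hu1, hu01⟩ := exists_continuous_zero_one_of_isClosed hO.isClosed_compl
        (isClosed_singleton : IsClosed ({b₀} : Set B))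
        (Set.disjoint_singleton_right.2 (fun h => h hσJ))
      have hub₀ : u b₀ = 1 := hu1 rfl
      have hmem : ∀ b, u b ≠ 0 → ∀ x, TamesAt σ.1 (J b) x := by
        intro b hb
        by_contra hn
        exact hb (hu0 hn)
      have hval : ∀ (b : B) (x : X) (v : TangentSpace 𝓘(ℝ, ES d) x),
          qd (addS zeroS (u b) σ).1 (J b) x v = u b * qd σ.1 (J b) x v := by
        intro b x v
        rw [qd_addS, qd_zeroS, zero_add]
      refine ⟨{b | u b ≠ 0}, mem_nhdsWithin_of_mem_nhds
        ((isOpen_ne_fun u.continuous continuous_const).mem_nhds ?_),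
        fun b => addS zeroS (u b) σ, addS_continuous continuous_const u.continuous
        continuous_const, fun b x v => ?_, fun b hb x v hv => ?_⟩
      · change u b₀ ≠ 0
        rw [hub₀]
        exact one_ne_zero
      · rw [hval]
        by_cases h : u b = 0
        · rw [h, zero_mul]
        · exact mul_nonneg (hu01 b).1 (nn_of_tames (hmem b h x) v)
      · rw [hval]
        exact mul_pos (lt_of_le_of_ne (hu01 b).1 (Ne.symm hb)) (hmem b hb x v hv)
  obtain ⟨R, h1, -, h3⟩ := main
  exact ⟨R, h1, fun b => h3 b (mem_univ b)⟩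

end

end Pool.Agent.Q235.TF
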