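import Pool.Agent.Q235.SZ.PubW
import Pool.Agent.Q235.SR.PubC

/-!
The space of almost complex structures and its subspace of the structures which are weakly tamed or
tamed up to singularities in a cohomology class: the definitions used in the statements of the
results.
-/

set_option autoImplicit false

open Set Filter Topology MeasureTheory
open scoped Manifold ContDiff

noncomputable section

namespace Pool.Agent.Q235.TF

open Pool.Agent.Y501.SYP Pool.Agent.Q235.SRP

section

variable {V : Type} [NormedAddCommGroup V] [NormedSpace ℝ V]
  {X : Type} [TopologicalSpace X] [ChartedSpace V X]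

variable (V X) in
/-- the continuous almost complex structures on `X` -/
def AStr : Type := {J : End V X // IsAlmostComplex J}

/-- the coefficients of `J` in the chart at `x₀`, applied to the vector `v` -/
def coef (x₀ : X) (v : V) (J : AStr V X) : C((chartAt V x₀).target, V) :=
  ⟨fun p => inChart J.1 x₀ p v, continuousOn_iff_continuous_domRestrict.1 (J.2.cont x₀ v)⟩

/-- the `C^0` topology: uniform convergence on compact sets, in all charts, of the coefficients
(the target of `coef x₀ v` has the compact-open topology) -/
instance instTopAStr : TopologicalSpace (AStr V X) :=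
  ⨅ (x₀ : X) (v : V), TopologicalSpace.induced (coef x₀ v) inferInstance

end

section

variable {d : ℕ} {X : Type} [TopologicalSpace X] [ChartedSpace (ES d) X]

/-- There are a closed set `K` whose `(d - 1)`-dimensional Hausdorff measure is zero (in every
chart) and a one-form `β` off `K` such that `β` and `σ = τ + dβ` are bounded near every point of
`K`, `σ(v, J v) ≥ 0` off `K` for all `v`, and the set of the points near which `σ` does not tame `J`
uniformly has small components. -/
def WeaklyTamed (τ : Form (ES d) X 2) (J : End (ES d) X) : Prop :=
  ∃ (K : Set X) (β : Form (ES d) X 1) (σ : Form (ES d) X 2), IsClosed K ∧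
    (∀ x : X, μH[(d : ℝ) - 1] (chartAt (ES d) x '' (K ∩ (chartAt (ES d) x).source)) = 0) ∧
    SmoothOff β K ∧ SmoothOff σ K ∧ EqPlusD σ τ β K ∧
    (∀ x ∈ K, BddNearK β K x ∧ BddNearK σ K x) ∧
    (∀ x, x ∉ K → ∀ v : TangentSpace 𝓘(ℝ, ES d) x, 0 ≤ qd σ J x v) ∧
    ∀ z ∈ Crit σ J K, SmallAll J (connectedComponentIn (Crit σ J K) z) z

/-- There are a compact set `K` whose one-dimensional Hausdorff measure is zero (in every chart),
`J` being Hölder continuous near `K`, and a one-form `β` off `K` which is bounded near every point
of `K` (or `o(dist⁻¹)` if the point is isolated in `K`) such that `σ = τ + dβ` tames `J` off `K`. -/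
def SingularlyTamed (τ : Form (ES d) X 2) (J : End (ES d) X) : Prop :=
  ∃ (K : Set X) (β : Form (ES d) X 1) (σ : Form (ES d) X 2), IsCompact K ∧
    (∀ x : X, μH[1] (chartAt (ES d) x '' (K ∩ (chartAt (ES d) x).source)) = 0) ∧
    (∀ x ∈ K, HolderNear J x) ∧ TamingInClassOff J τ β σ K

/-- the almost complex structures which are weakly tamed or singularly tamed in the class of
`τ` -/
def Structures (τ : Form (ES d) X 2) : Set (AStr (ES d) X) :=
  {J | WeaklyTamed τ J.1 ∨ SingularlyTamed τ J.1}

end

end Pool.Agent.Q235.TF
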