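import Pool.Agent.Q235.SZ.Push
import Pool.Agent.Q235.TF.PubF

/-!
Project TF: being tame is an open condition for continuous families of structures.
-/

set_option autoImplicit false

open Set Filter Topology
open scoped Manifold ContDiff

noncomputable section

namespace Pool.Agent.Q235.TF

open Pool.Agent.Y501.SYP
open Pool.Agent.Q235.SZ (SForm smooth_chart)

section

variable {V : Type} [NormedAddCommGroup V] [NormedSpace ℝ V]
  {X : Type} [TopologicalSpace X] [ChartedSpace V X]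

/-- A family of endomorphisms of the tangent bundle is continuous, jointly in the parameter and the
point (in the charts). -/
def ContJ {B : Type} [TopologicalSpace B] (J : B → End V X) : Prop :=
  ∀ (x₀ : X) (v : V), ContinuousOn (fun q : B × V => inChart (J q.1) x₀ q.2 v)
    (univ ×ˢ (chartAt V x₀).target)

/-- `inChart` is linear -/
def inL (J : End V X) (x₀ : X) (p : V) : V →L[ℝ] V :=
  (mfderiv 𝓘(ℝ, V) 𝓘(ℝ, V) (chartAt V x₀) ((chartAt V x₀).symm p)).comp
    ((J ((chartAt V x₀).symm p)).comp (mfderiv 𝓘(ℝ, V) 𝓘(ℝ, V) (chartAt V x₀).symm p))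

theorem inL_apply (J : End V X) (x₀ : X) (p v : V) : inL J x₀ p v = inChart J x₀ p v := rfl

theorem inL_cont [FiniteDimensional ℝ V] {B : Type} [TopologicalSpace B] {J : B → End V X}
    (hJ : ContJ J) (x₀ : X) : ContinuousOn (fun q : B × V => inL (J q.1) x₀ q.2)
      (univ ×ˢ (chartAt V x₀).target) := by
  exact continuousOn_clm_apply.2 fun v => hJ x₀ v

variable [IsManifold 𝓘(ℝ, V) ∞ X]

theorem symm_comp (x₀ : X) {p : V} (hp : p ∈ (chartAt V x₀).target)
    (u : TangentSpace 𝓘(ℝ, V) ((chartAt V x₀).symm p)) :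
    mfderiv 𝓘(ℝ, V) 𝓘(ℝ, V) (chartAt V x₀).symm p
      (mfderiv 𝓘(ℝ, V) 𝓘(ℝ, V) (chartAt V x₀) ((chartAt V x₀).symm p) u) = u := by
  have h1 := (mdifferentiable_chart (I := 𝓘(ℝ, V)) x₀).symm_comp_deriv
    ((chartAt V x₀).map_target hp)
  have h2 := congrArg (fun L => L u) h1
  have h3 : (chartAt V x₀) ((chartAt V x₀).symm p) = p := (chartAt V x₀).right_inv hp
  have h4 : mfderiv 𝓘(ℝ, V) 𝓘(ℝ, V) (chartAt V x₀).symm ((chartAt V x₀) ((chartAt V x₀).symm p))
      (mfderiv 𝓘(ℝ, V) 𝓘(ℝ, V) (chartAt V x₀) ((chartAt V x₀).symm p) u) = u := h2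
  rw [h3] at h4
  exact h4

/-- the number `σ(v, J v)` in a chart -/
theorem qd_chart (σ : Form V X 2) (J : End V X) (x₀ : X) {p : V}
    (hp : p ∈ (chartAt V x₀).target) (v : V) :
    qd σ J ((chartAt V x₀).symm p) (mfderiv 𝓘(ℝ, V) 𝓘(ℝ, V) (chartAt V x₀).symm p v) =
      pb (chartAt V x₀).symm σ p ![v, inL J x₀ p v] := by
  have h1 := symm_comp x₀ hp (J ((chartAt V x₀).symm p)
    (mfderiv 𝓘(ℝ, V) 𝓘(ℝ, V) (chartAt V x₀).symm p v))
  have h2 : pb (chartAt V x₀).symm σ p ![v, inL J x₀ p v] =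
      σ ((chartAt V x₀).symm p) ![mfderiv 𝓘(ℝ, V) 𝓘(ℝ, V) (chartAt V x₀).symm p v,
        mfderiv 𝓘(ℝ, V) 𝓘(ℝ, V) (chartAt V x₀).symm p (inL J x₀ p v)] := by
    change σ ((chartAt V x₀).symm p) _ = _
    congr 1
    funext i
    fin_cases i <;> rfl
  rw [h2]
  have h3 : mfderiv 𝓘(ℝ, V) 𝓘(ℝ, V) (chartAt V x₀).symm p (inL J x₀ p v) =
      J ((chartAt V x₀).symm p) (mfderiv 𝓘(ℝ, V) 𝓘(ℝ, V) (chartAt V x₀).symm p v) := h1
  rw [h3]
  rfl

/-- taming at a point, in a chart -/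
theorem tames_iff (σ : Form V X 2) (J : End V X) (x₀ : X) {x : X}
    (hx : x ∈ (chartAt V x₀).source) :
    TamesAt σ J x ↔ ∀ v ∈ Metric.sphere (0 : V) 1,
      0 < pb (chartAt V x₀).symm σ (chartAt V x₀ x) ![v, inL J x₀ (chartAt V x₀ x) v] := by
  obtain ⟨p, hp, rfl⟩ : ∃ p ∈ (chartAt V x₀).target, (chartAt V x₀).symm p = x :=
    ⟨chartAt V x₀ x, (chartAt V x₀).map_source hx, (chartAt V x₀).left_inv hx⟩
  rw [(chartAt V x₀).right_inv hp]
  constructor
  · intro h v hv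
    rw [← qd_chart σ J x₀ hp v]
    refine h _ fun h0 => ?_
    have h1 := (mdifferentiable_chart (I := 𝓘(ℝ, V)) x₀).comp_symm_deriv hp
    have h2 := congrArg (fun L => L v) h1
    have h3 : mfderiv 𝓘(ℝ, V) 𝓘(ℝ, V) (chartAt V x₀) ((chartAt V x₀).symm p)
      (mfderiv 𝓘(ℝ, V) 𝓘(ℝ, V) (chartAt V x₀).symm p v) = v := h2
    rw [h0, map_zero] at h3
    rw [mem_sphere_zero_iff_norm, ← h3] at hv
    exact absurd (hv.symm.trans norm_zero) one_ne_zero
  · intro h u hu
    set w : V := mfderiv 𝓘(ℝ, V) 𝓘(ℝ, V) (chartAt V x₀) ((chartAt V x₀).symm p) u with hw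
    have h1 : mfderiv 𝓘(ℝ, V) 𝓘(ℝ, V) (chartAt V x₀).symm p w = u := symm_comp x₀ hp u
    have hw0 : w ≠ 0 := fun h0 => hu (by
      rw [← h1, h0]
      exact (mfderiv 𝓘(ℝ, V) 𝓘(ℝ, V) (chartAt V x₀).symm p).map_zero)
    have hn : 0 < ‖w‖ := norm_pos_iff.2 hw0
    have h2 := h (‖w‖⁻¹ • w) (by
      rw [mem_sphere_zero_iff_norm, norm_smul, norm_inv, norm_norm, inv_mul_cancel₀ hn.ne'])
    have h3 : pb (chartAt V x₀).symm σ p ![‖w‖⁻¹ • w, inL J x₀ p (‖w‖⁻¹ • w)] =
        ‖w‖⁻¹ * (‖w‖⁻¹ * pb (chartAt V x₀).symm σ p ![w, inL J x₀ p w]) := by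
      rw [map_smul]
      have key : ∀ (a : V [⋀^Fin 2]→L[ℝ] ℝ) (c : ℝ) (v v' : V),
          a ![c • v, c • v'] = c * (c * a ![v, v']) := by
        intro a c v v'
        have e1 : (![c • v, c • v'] : Fin 2 → V) = fun i => c • (![v, v'] : Fin 2 → V) i := by
          funext i
          fin_cases i <;> rfl
        rw [e1]
        have e2 := a.toContinuousMultilinearMap.map_smul_univ (fun _ => c) ![v, v']
        have e3 : a (fun i => c • (![v, v'] : Fin 2 → V) i) = (∏ _i : Fin 2, c) • a ![v, v'] := e2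
        rw [e3, Fin.prod_univ_two, smul_eq_mul, mul_assoc]
      exact key _ _ _ _
    rw [h3] at h2
    have h5 : 0 < pb (chartAt V x₀).symm σ p ![w, inL J x₀ p w] := by
      have h6 : 0 < ‖w‖⁻¹ := inv_pos.2 hn
      exact (mul_pos_iff_of_pos_left h6).1 ((mul_pos_iff_of_pos_left h6).1 h2)
    rw [← qd_chart σ J x₀ hp w, h1] at h5
    exact h5

/-- Taming is an open condition. -/
theorem tames_open [FiniteDimensional ℝ V] {B : Type} [TopologicalSpace B] {J : B → End V X}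
    (hJ : ContJ J) (σ : SForm V X) : IsOpen {q : B × X | TamesAt σ.1 (J q.1) q.2} := by
  have hpr : ProperSpace V := FiniteDimensional.proper ℝ V
  rw [isOpen_iff_mem_nhds]
  rintro ⟨b₀, x₀⟩ h0
  have hx₀ : x₀ ∈ (chartAt V x₀).source := mem_chart_source V x₀
  have h1 := (tames_iff σ.1 (J b₀) x₀ hx₀).1 h0
  set e := chartAt V x₀ with he
  have ht : e x₀ ∈ e.target := e.map_source hx₀
  have hopen : IsOpen ((univ : Set B) ×ˢ e.target) := isOpen_univ.prod e.open_target
  have hG : ∀ v : V, ContinuousAt (fun q : (B × V) × V =>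
      pb e.symm σ.1 q.1.2 ![q.2, inL (J q.1.1) x₀ q.1.2 q.2]) ((b₀, e x₀), v) := by
    intro v
    have c1 : ContinuousAt (fun q : (B × V) × V => inL (J q.1.1) x₀ q.1.2) ((b₀, e x₀), v) := by
      have h5 : ContinuousAt (fun q : B × V => inL (J q.1) x₀ q.2) (b₀, e x₀) :=
        (inL_cont hJ x₀).continuousAt (hopen.mem_nhds (mk_mem_prod (mem_univ b₀) ht))
      exact ContinuousAt.comp (g := fun q : B × V => inL (J q.1) x₀ q.2)
        (f := fun q : (B × V) × V => q.1) (x := ((b₀, e x₀), v)) h5 continuousAt_fst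
    have c2 : ContinuousAt (fun q : (B × V) × V => pb e.symm σ.1 q.1.2) ((b₀, e x₀), v) := by
      have h2 := ((smooth_chart σ x₀).continuousOn).continuousAt (e.open_target.mem_nhds ht)
      exact ContinuousAt.comp (g := pb e.symm σ.1) (f := fun q : (B × V) × V => q.1.2)
        (x := ((b₀, e x₀), v)) h2 (continuous_snd.comp continuous_fst).continuousAt
    have c3 : ContinuousAt (fun q : (B × V) × V => inL (J q.1.1) x₀ q.1.2 q.2)
        ((b₀, e x₀), v) := c1.clm_apply continuousAt_snd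
    have c4 : ContinuousAt (fun q : (B × V) × V =>
        (![q.2, inL (J q.1.1) x₀ q.1.2 q.2] : Fin 2 → V)) ((b₀, e x₀), v) := by
      refine continuousAt_pi.2 fun i => ?_
      fin_cases i
      · exact continuousAt_snd
      · exact c3
    have c5 : Continuous fun q : (V [⋀^Fin 2]→L[ℝ] ℝ) × (Fin 2 → V) => q.1 q.2 := by
      fun_prop
    exact c5.continuousAt.comp (f := fun q : (B × V) × V =>
      (pb e.symm σ.1 q.1.2, (![q.2, inL (J q.1.1) x₀ q.1.2 q.2] : Fin 2 → V))) (c2.prodMk c4)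
  have h2 : ∀ᶠ q : B × V in 𝓝 (b₀, e x₀), ∀ v ∈ Metric.sphere (0 : V) 1,
      0 < pb e.symm σ.1 q.2 ![v, inL (J q.1) x₀ q.2 v] := by
    refine (isCompact_sphere (0 : V) 1).eventually_forall_of_forall_eventually fun v hv => ?_
    exact (hG v).eventually_const_lt (h1 v hv)
  have h3 : ContinuousAt (fun q : B × X => (q.1, e q.2)) (b₀, x₀) :=
    continuousAt_fst.prodMk ((e.continuousAt hx₀).comp (f := fun q : B × X => q.2)
      continuousAt_snd)
  have h4 : ∀ᶠ q : B × X in 𝓝 (b₀, x₀), q.2 ∈ e.source :=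
    continuousAt_snd.eventually (e.open_source.mem_nhds hx₀)
  filter_upwards [h3.eventually h2, h4] with q hq hq2
  exact (tames_iff σ.1 (J q.1) x₀ hq2).2 hq

/-- The parameters whose structure is tamed by a given form are an open set. -/
theorem tames_open' [FiniteDimensional ℝ V] [CompactSpace X] {B : Type} [TopologicalSpace B]
    {J : B → End V X} (hJ : ContJ J) (σ : SForm V X) :
    IsOpen {b : B | ∀ x, TamesAt σ.1 (J b) x} := by
  rw [isOpen_iff_mem_nhds]
  intro b₀ h0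
  have h1 : ∀ᶠ b in 𝓝 b₀, ∀ x ∈ (univ : Set X), TamesAt σ.1 (J b) x :=
    isCompact_univ.eventually_forall_of_forall_eventually fun x _ =>
      (tames_open hJ σ).mem_nhds (h0 x)
  filter_upwards [h1] with b hb x
  exact hb x (mem_univ x)

end

end Pool.Agent.Q235.TF
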