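import Pool.Agent.Q235.TF.Core

/-!
Project TF: the complex structure given by a nondegenerate two-form and an inner product, and its
continuity.
-/

set_option autoImplicit false

open Set Filter Topology
open scoped InnerProductSpace

noncomputable section

namespace Pool.Agent.Q235.TF

section

variable {V : Type} [NormedAddCommGroup V] [NormedSpace ℝ V]
  {W : Type} [NormedAddCommGroup W] [InnerProductSpace ℝ W]

/-- the conditions on the polar part `J` of the form `s` for the inner product `⟪D u, D v⟫` -/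
structure IsPolar (D : V →L[ℝ] W) (s : V [⋀^Fin 2]→L[ℝ] ℝ) (J : V →L[ℝ] V) : Prop where
  sq : ∀ v, J (J v) = -v
  iso : ∀ u v, ⟪D (J u), D (J v)⟫_ℝ = ⟪D u, D v⟫_ℝ
  pres : ∀ u v, s ![J u, J v] = s ![u, v]
  nn : ∀ v, 0 ≤ s ![v, J v]

/-- the bilinear map of an alternating form -/
def bl (s : V [⋀^Fin 2]→L[ℝ] ℝ) : V →ₗ[ℝ] V →ₗ[ℝ] ℝ :=
  LinearMap.mk₂ ℝ (fun u v => s ![u, v])
    (fun u u' v => by
      have h := s.toContinuousMultilinearMap.map_update_add ![u, v] 0 u u'
      have e : ∀ w : V, Function.update (![u, v] : Fin 2 → V) 0 w = ![w, v] := by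
        intro w
        funext i
        fin_cases i <;> rfl
      rw [e, e, e] at h
      exact h)
    (fun c u v => by
      have h := s.toContinuousMultilinearMap.map_update_smul ![u, v] 0 c u
      have e : ∀ w : V, Function.update (![u, v] : Fin 2 → V) 0 w = ![w, v] := by
        intro w
        funext i
        fin_cases i <;> rfl
      rw [e, e] at h
      exact h)
    (fun u v v' => by
      have h := s.toContinuousMultilinearMap.map_update_add ![u, v] 1 v v'
      have e : ∀ w : V, Function.update (![u, v] : Fin 2 → V) 1 w = ![u, w] := by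
        intro w
        funext i
        fin_cases i <;> rfl
      rw [e, e, e] at h
      exact h)
    (fun c u v => by
      have h := s.toContinuousMultilinearMap.map_update_smul ![u, v] 1 c v
      have e : ∀ w : V, Function.update (![u, v] : Fin 2 → V) 1 w = ![u, w] := by
        intro w
        funext i
        fin_cases i <;> rfl
      rw [e, e] at h
      exact h)

theorem bl_apply (s : V [⋀^Fin 2]→L[ℝ] ℝ) (u v : V) : bl s u v = s ![u, v] := rfl

theorem bl_swap (s : V [⋀^Fin 2]→L[ℝ] ℝ) (u v : V) : bl s u v = -bl s v u := by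
  have h := s.map_swap ![u, v] (i := 0) (j := 1) (by decide)
  have e : (![u, v] : Fin 2 → V) ∘ Equiv.swap 0 1 = ![v, u] := by
    funext i
    fin_cases i <;> rfl
  rw [e] at h
  have h' : s ![v, u] = -s ![u, v] := h
  rw [bl_apply, bl_apply, h', neg_neg]

variable [FiniteDimensional ℝ V]

/-- the skew-symmetric map on the range of `D` -/
theorem exists_skew (D : V →L[ℝ] W) (hD : Function.Injective D) (s : V [⋀^Fin 2]→L[ℝ] ℝ) :
    ∃ A : LinearMap.range D.toLinearMap →ₗ[ℝ] LinearMap.range D.toLinearMap,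
      ∀ u v, ⟪A u, v⟫_ℝ = bl s ((LinearEquiv.ofInjective D.toLinearMap hD).symm u)
        ((LinearEquiv.ofInjective D.toLinearMap hD).symm v) := by
  set E := LinearEquiv.ofInjective D.toLinearMap hD with hE
  have hfd : FiniteDimensional ℝ (LinearMap.range D.toLinearMap) := inferInstance
  let b := stdOrthonormalBasis ℝ (LinearMap.range D.toLinearMap)
  refine ⟨∑ i, ((LinearMap.toSpanSingleton ℝ _ (b i)) ∘ₗ
    (((bl s).flip (E.symm (b i))) ∘ₗ E.symm.toLinearMap)), fun u v => ?_⟩
  rw [LinearMap.sum_apply, sum_inner]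
  have h1 : ∀ i, ⟪((LinearMap.toSpanSingleton ℝ _ (b i)) ∘ₗ
      (((bl s).flip (E.symm (b i))) ∘ₗ E.symm.toLinearMap)) u, v⟫_ℝ =
      bl s (E.symm u) (⟪b i, v⟫_ℝ • E.symm (b i)) := by
    intro i
    change ⟪(bl s (E.symm u) (E.symm (b i))) • b i, v⟫_ℝ = _
    rw [real_inner_smul_left, map_smul, smul_eq_mul]
    ring
  rw [Finset.sum_congr rfl fun i _ => h1 i, ← map_sum]
  congr 1
  have h2 := congrArg E.symm (b.sum_repr' v)
  rw [map_sum] at h2
  rw [← h2]
  exact Finset.sum_congr rfl fun i _ => by rw [map_smul]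

theorem polar_exists (D : V →L[ℝ] W) (hD : Function.Injective D) (s : V [⋀^Fin 2]→L[ℝ] ℝ)
    (hs : ∀ v, (∀ w, s ![v, w] = 0) → v = 0) :
    ∃ J : V →L[ℝ] V, IsPolar D s J ∧ ∀ v ≠ 0, 0 < s ![v, J v] := by
  obtain ⟨A, hA⟩ := exists_skew D hD s
  set E := LinearEquiv.ofInjective D.toLinearMap hD with hE
  have hskew : ∀ u v, ⟪A u, v⟫_ℝ = -⟪u, A v⟫_ℝ := by
    intro u v
    rw [hA, bl_swap, real_inner_comm, hA]
  have hinj : ∀ v, A v = 0 → v = 0 := by
    intro v hv
    have h1 : E.symm v = 0 := hs _ fun w => by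
      have h2 := hA v (E w)
      rw [hv, inner_zero_left, E.symm_apply_apply] at h2
      exact h2.symm
    exact E.symm.map_eq_zero_iff.1 h1
  have hDE : ∀ v : V, ((E v : LinearMap.range D.toLinearMap) : W) = D v := fun v => rfl
  obtain ⟨K, hK, hpos⟩ := cs_exists hskew hinj
  refine ⟨LinearMap.toContinuousLinearMap (E.symm.toLinearMap ∘ₗ K ∘ₗ E.toLinearMap),
    ⟨fun v => ?_, fun u v => ?_, fun u v => ?_, fun v => ?_⟩, fun v hv => ?_⟩
  · change E.symm (K (E (E.symm (K (E v))))) = -v
    rw [E.apply_symm_apply, hK.sq, map_neg, E.symm_apply_apply]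
  · change ⟪D (E.symm (K (E u))), D (E.symm (K (E v)))⟫_ℝ = ⟪D u, D v⟫_ℝ
    rw [← hDE, ← hDE, ← hDE, ← hDE, E.apply_symm_apply, E.apply_symm_apply]
    exact hK.iso (E u) (E v)
  · change bl s (E.symm (K (E u))) (E.symm (K (E v))) = bl s u v
    rw [← hA, ← hK.comm, hK.iso, hA, E.symm_apply_apply, E.symm_apply_apply]
  · change 0 ≤ bl s v (E.symm (K (E v)))
    have h1 := hK.nn (E v)
    rw [hA, E.symm_apply_apply] at h1
    exact h1
  · change 0 < bl s v (E.symm (K (E v)))
    have h1 := hpos (E v) (fun h0 => hv (E.map_eq_zero_iff.1 h0))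
    rw [hA, E.symm_apply_apply] at h1
    exact h1

theorem polar_unique (D : V →L[ℝ] W) (hD : Function.Injective D) (s : V [⋀^Fin 2]→L[ℝ] ℝ)
    (hs : ∀ v, (∀ w, s ![v, w] = 0) → v = 0) {J J' : V →L[ℝ] V} (h : IsPolar D s J)
    (h' : IsPolar D s J') : J = J' := by
  obtain ⟨A, hA⟩ := exists_skew D hD s
  set E := LinearEquiv.ofInjective D.toLinearMap hD with hE
  have hskew : ∀ u v, ⟪A u, v⟫_ℝ = -⟪u, A v⟫_ℝ := by
    intro u v
    rw [hA, bl_swap, real_inner_comm, hA]
  have hinj : ∀ v, A v = 0 → v = 0 := by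
    intro v hv
    have h1 : E.symm v = 0 := hs _ fun w => by
      have h2 := hA v (E w)
      rw [hv, inner_zero_left, E.symm_apply_apply] at h2
      exact h2.symm
    exact E.symm.map_eq_zero_iff.1 h1
  have hDE : ∀ v : V, ((E v : LinearMap.range D.toLinearMap) : W) = D v := fun v => rfl
  have hDE' : ∀ r, D (E.symm r) = r := fun r => by
    rw [← hDE, E.apply_symm_apply]
  have key : ∀ K : V →L[ℝ] V, IsPolar D s K → Cs A (E.toLinearMap ∘ₗ K.toLinearMap ∘ₗ
      E.symm.toLinearMap) := by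
    intro K hK
    have hsq : ∀ r, E (K (E.symm (E (K (E.symm r))))) = -r := by
      intro r
      rw [E.symm_apply_apply, hK.sq, map_neg, E.apply_symm_apply]
    have hiso : ∀ u v, ⟪E (K (E.symm u)), E (K (E.symm v))⟫_ℝ = ⟪u, v⟫_ℝ := by
      intro u v
      have h1 := hK.iso (E.symm u) (E.symm v)
      rw [hDE', hDE'] at h1
      exact h1
    have hpr : ∀ u v, ⟪A (E (K (E.symm u))), E (K (E.symm v))⟫_ℝ = ⟪A u, v⟫_ℝ := by
      intro u v
      rw [hA, hA, E.symm_apply_apply, E.symm_apply_apply]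
      exact hK.pres _ _
    refine ⟨hsq, hiso, fun v => ?_, fun v => ?_⟩
    · change E (K (E.symm (A v))) = A (E (K (E.symm v)))
      refine ext_inner_right ℝ fun r => ?_
      have h2 : r = E (K (E.symm (-(E (K (E.symm r)))))) := by
        rw [map_neg, map_neg, map_neg, hsq, neg_neg]
      rw [h2, hpr, hiso]
    · change 0 ≤ ⟪A v, E (K (E.symm v))⟫_ℝ
      rw [hA, E.symm_apply_apply]
      exact hK.nn _
  have h1 := cs_unique hskew hinj (key J h) (key J' h')
  ext v
  have h2 := LinearMap.congr_fun h1 (E v)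
  have h3 : E (J (E.symm (E v))) = E (J' (E.symm (E v))) := h2
  rw [E.symm_apply_apply] at h3
  exact E.injective h3

end

end Pool.Agent.Q235.TF
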