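import Pool.Agent.Q235.TF.Polar
import Pool.Agent.Q235.TF.Homot

/-!
Project TF: families of symplectic forms tame families of almost complex structures.
-/

set_option autoImplicit false

open Set Filter Topology
open scoped Manifold ContDiff InnerProductSpace

noncomputable section

namespace Pool.Agent.Q235.TF

section

variable {V : Type} [NormedAddCommGroup V] [NormedSpace ℝ V] [FiniteDimensional ℝ V]
  {W : Type} [NormedAddCommGroup W] [InnerProductSpace ℝ W]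

omit [FiniteDimensional ℝ V] in
theorem t_apply {Z : Type} {l : Filter Z} {E : Type} [NormedAddCommGroup E] [NormedSpace ℝ E]
    {L : Z → V →L[ℝ] E} {L₀ : V →L[ℝ] E} {v : Z → V} {v₀ : V} (hL : Tendsto L l (𝓝 L₀))
    (hv : Tendsto v l (𝓝 v₀)) : Tendsto (fun z => L z (v z)) l (𝓝 (L₀ v₀)) :=
  ((isBoundedBilinearMap_apply (𝕜 := ℝ) (E := V) (F := E)).continuous.tendsto (L₀, v₀)).comp
    (hL.prodMk_nhds hv)

/-- the complex structures given by a continuous family of forms and a continuous family of inner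
products are a continuous family -/
theorem polar_cont {Z : Type} [TopologicalSpace Z] {D : Z → V →L[ℝ] W}
    {s : Z → V [⋀^Fin 2]→L[ℝ] ℝ} {K : Z → V →L[ℝ] V} {z₀ : Z} (hDc : ContinuousAt D z₀)
    (hsc : ContinuousAt s z₀) (hK : ∀ᶠ z in 𝓝 z₀, IsPolar (D z) (s z) (K z))
    (hD : Function.Injective (D z₀)) (hs : ∀ v, (∀ w, s z₀ ![v, w] = 0) → v = 0) :
    ContinuousAt K z₀ := by
  obtain ⟨c, hc, hcl⟩ : ∃ c : ℝ, 0 < c ∧ ∀ v, ‖v‖ ≤ c * ‖D z₀ v‖ := by
    obtain ⟨c, hc, h⟩ := (D z₀).toLinearMap.exists_antilipschitzWith (LinearMap.ker_eq_bot.2 hD)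
    exact ⟨c, by exact_mod_cast hc, fun v => (D z₀).bound_of_antilipschitz h v⟩
  set ε : ℝ := 1 / (2 * c) with hε
  have hε0 : 0 < ε := by positivity
  set M : ℝ := 2 * c * (‖D z₀‖ + ε) with hM
  have hM0 : 0 ≤ M := by positivity
  have hbd : ∀ᶠ z in 𝓝 z₀, ‖K z‖ ≤ M := by
    have h1 : ∀ᶠ z in 𝓝 z₀, ‖D z - D z₀‖ < ε := by
      have h2 : Tendsto (fun z => ‖D z - D z₀‖) (𝓝 z₀) (𝓝 ‖D z₀ - D z₀‖) :=
        (hDc.sub continuousAt_const).norm
      rw [sub_self, norm_zero] at h2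
      exact h2.eventually (gt_mem_nhds hε0)
    filter_upwards [h1, hK] with z hz hp
    have h3 : ∀ v, ‖v‖ ≤ 2 * c * ‖D z v‖ := by
      intro v
      have h4 := hcl v
      have h5 : ‖D z₀ v‖ ≤ ‖D z v‖ + ε * ‖v‖ := by
        have h6 : D z₀ v = D z v - (D z - D z₀) v := by
          rw [_root_.sub_apply]
          abel
        rw [h6]
        refine (norm_sub_le _ _).trans (add_le_add le_rfl ?_)
        exact ((D z - D z₀).le_opNorm v).trans
          (mul_le_mul_of_nonneg_right hz.le (norm_nonneg _))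
      have h7 : c * (‖D z v‖ + ε * ‖v‖) = c * ‖D z v‖ + ‖v‖ / 2 := by
        rw [hε]
        field_simp
      have h8 := h4.trans (mul_le_mul_of_nonneg_left h5 hc.le)
      rw [h7] at h8
      linarith
    refine ContinuousLinearMap.opNorm_le_bound _ hM0 fun v => ?_
    have h9 : ‖D z (K z v)‖ = ‖D z v‖ := by
      have h10 := hp.iso v v
      rw [real_inner_self_eq_norm_sq, real_inner_self_eq_norm_sq] at h10
      exact (sq_eq_sq₀ (norm_nonneg _) (norm_nonneg _)).1 h10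
    have h11 : ‖D z v‖ ≤ (‖D z₀‖ + ε) * ‖v‖ := by
      refine ((D z).le_opNorm v).trans (mul_le_mul_of_nonneg_right ?_ (norm_nonneg _))
      have h12 : D z = D z₀ + (D z - D z₀) := by abel
      rw [h12]
      exact (norm_add_le _ _).trans (add_le_add le_rfl hz.le)
    refine (h3 (K z v)).trans ?_
    rw [h9, hM, mul_assoc (2 * c)]
    exact mul_le_mul_of_nonneg_left h11 (by positivity)
  have hpr : ProperSpace (V →L[ℝ] V) := FiniteDimensional.proper ℝ _
  rw [ContinuousAt, tendsto_iff_ultrafilter]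
  intro g hg
  obtain ⟨K₁, -, hlim⟩ := (isCompact_closedBall (0 : V →L[ℝ] V) M).ultrafilter_le_nhds (g.map K)
    (by
      rw [Filter.le_principal_iff]
      have h1 : ∀ᶠ z in (g : Filter Z), K z ∈ Metric.closedBall (0 : V →L[ℝ] V) M := by
        filter_upwards [hbd.filter_mono hg] with z hz
        rw [mem_closedBall_zero_iff]
        exact hz
      exact h1)
  have hKt : Tendsto K g (𝓝 K₁) := hlim
  have hDt : Tendsto D g (𝓝 (D z₀)) := hDc.mono_left hg
  have hst : Tendsto s g (𝓝 (s z₀)) := hsc.mono_left hg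
  have hpg : ∀ᶠ z in (g : Filter Z), IsPolar (D z) (s z) (K z) := hK.filter_mono hg
  have hKv : ∀ v, Tendsto (fun z => K z v) g (𝓝 (K₁ v)) := fun v =>
    t_apply hKt tendsto_const_nhds
  have hev : Continuous fun q : (V [⋀^Fin 2]→L[ℝ] ℝ) × (Fin 2 → V) => q.1 q.2 := by
    fun_prop
  have hsv : ∀ {p q : Z → V} {p₀ q₀ : V}, Tendsto p g (𝓝 p₀) → Tendsto q g (𝓝 q₀) →
      Tendsto (fun z => s z ![p z, q z]) g (𝓝 (s z₀ ![p₀, q₀])) := by
    intro p q p₀ q₀ hp hq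
    have h1 : Tendsto (fun z => (![p z, q z] : Fin 2 → V)) g (𝓝 ![p₀, q₀]) := by
      refine tendsto_pi_nhds.2 fun i => ?_
      fin_cases i
      · exact hp
      · exact hq
    exact (hev.tendsto (s z₀, ![p₀, q₀])).comp (hst.prodMk_nhds h1)
  have hpol : IsPolar (D z₀) (s z₀) K₁ := by
    refine ⟨fun v => ?_, fun u v => ?_, fun u v => ?_, fun v => ?_⟩
    · have h1 : Tendsto (fun z => K z (K z v)) g (𝓝 (K₁ (K₁ v))) :=
        t_apply hKt (hKv v)
      refine tendsto_nhds_unique_of_eventuallyEq h1 tendsto_const_nhds ?_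
      filter_upwards [hpg] with z hz
      exact hz.sq v
    · have h1 : Tendsto (fun z => ⟪D z (K z u), D z (K z v)⟫_ℝ) g
          (𝓝 ⟪D z₀ (K₁ u), D z₀ (K₁ v)⟫_ℝ) :=
        (t_apply hDt (hKv u)).inner (t_apply hDt (hKv v))
      have h2 : Tendsto (fun z => ⟪D z u, D z v⟫_ℝ) g (𝓝 ⟪D z₀ u, D z₀ v⟫_ℝ) :=
        (t_apply hDt tendsto_const_nhds).inner (t_apply hDt tendsto_const_nhds)
      refine tendsto_nhds_unique_of_eventuallyEq h1 h2 ?_
      filter_upwards [hpg] with z hz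
      exact hz.iso u v
    · refine tendsto_nhds_unique_of_eventuallyEq (hsv (hKv u) (hKv v))
        (hsv tendsto_const_nhds tendsto_const_nhds) ?_
      filter_upwards [hpg] with z hz
      exact hz.pres u v
    · refine ge_of_tendsto (hsv tendsto_const_nhds (hKv v)) ?_
      filter_upwards [hpg] with z hz
      exact hz.nn v
  have h1 : K₁ = K z₀ := polar_unique (D z₀) hD (s z₀) hs hpol hK.self_of_nhds
  rw [← h1]
  exact hKt

end

section

open Pool.Agent.Y501.SYP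
open Pool.Agent.Q235.SZ (SForm InClass SympClass joint)

variable {V : Type} [NormedAddCommGroup V] [NormedSpace ℝ V]
  {X : Type} [TopologicalSpace X] [ChartedSpace V X] [IsManifold 𝓘(ℝ, V) ∞ X]
  {W : Type} [NormedAddCommGroup W] [InnerProductSpace ℝ W]

theorem comp_symm (x₀ : X) {p : V} (hp : p ∈ (chartAt V x₀).target) (v : V) :
    mfderiv 𝓘(ℝ, V) 𝓘(ℝ, V) (chartAt V x₀) ((chartAt V x₀).symm p)
      (mfderiv 𝓘(ℝ, V) 𝓘(ℝ, V) (chartAt V x₀).symm p v) = v := by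
  have h1 := (mdifferentiable_chart (I := 𝓘(ℝ, V)) x₀).comp_symm_deriv hp
  exact congrArg (fun L => L v) h1

/-- the derivative of `F` at `x` -/
def dF (F : X → W) (x : X) : V →L[ℝ] W := mfderiv 𝓘(ℝ, V) 𝓘(ℝ, W) F x

/-- the derivative of `F` in the chart -/
def dFc (F : X → W) (x₀ : X) (p : V) : V →L[ℝ] W :=
  (dF (V := V) F ((chartAt V x₀).symm p)).comp (mfderiv 𝓘(ℝ, V) 𝓘(ℝ, V) (chartAt V x₀).symm p)

theorem dFc_cont {F : X → W} (hF : ContMDiff 𝓘(ℝ, V) 𝓘(ℝ, W) ∞ F) (x₀ : X) :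
    ContinuousOn (dFc (V := V) F x₀) (chartAt V x₀).target := by
  have h1 : ContMDiffOn 𝓘(ℝ, V) 𝓘(ℝ, W) ∞ (F ∘ (chartAt V x₀).symm) (chartAt V x₀).target :=
    hF.comp_contMDiffOn contMDiffOn_chart_symm
  have h2 : ContDiffOn ℝ ∞ (F ∘ (chartAt V x₀).symm) (chartAt V x₀).target :=
    contMDiffOn_iff_contDiffOn.1 h1
  have h3 := h2.continuousOn_fderiv_of_isOpen (chartAt V x₀).open_target (by norm_num)
  refine h3.congr fun p hp => ?_
  have h4 : MDifferentiableAt 𝓘(ℝ, V) 𝓘(ℝ, V) (chartAt V x₀).symm p :=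
    (mdifferentiable_chart (I := 𝓘(ℝ, V)) x₀).mdifferentiableAt_symm hp
  have h5 : MDifferentiableAt 𝓘(ℝ, V) 𝓘(ℝ, W) F ((chartAt V x₀).symm p) :=
    hF.mdifferentiableAt (by norm_num)
  have h6 := mfderiv_comp p h5 h4
  rw [mfderiv_eq_fderiv] at h6
  exact h6.symm

theorem dFc_inj {F : X → W} (hF : ∀ x, Function.Injective (mfderiv 𝓘(ℝ, V) 𝓘(ℝ, W) F x)) (x₀ : X)
    {p : V} (hp : p ∈ (chartAt V x₀).target) : Function.Injective (dFc (V := V) F x₀ p) := by
  intro u v huv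
  have h1 : mfderiv 𝓘(ℝ, V) 𝓘(ℝ, V) (chartAt V x₀).symm p u =
      mfderiv 𝓘(ℝ, V) 𝓘(ℝ, V) (chartAt V x₀).symm p v := hF _ huv
  rw [← comp_symm x₀ hp u, ← comp_symm x₀ hp v, h1]

omit [IsManifold 𝓘(ℝ, V) ∞ X] in
theorem pb_val (x₀ : X) (p : V) (σ : Form V X 2) (u v : V) :
    pb (chartAt V x₀).symm σ p ![u, v] = σ ((chartAt V x₀).symm p)
      ![mfderiv 𝓘(ℝ, V) 𝓘(ℝ, V) (chartAt V x₀).symm p u,
        mfderiv 𝓘(ℝ, V) 𝓘(ℝ, V) (chartAt V x₀).symm p v] := by
  change σ ((chartAt V x₀).symm p) _ = _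
  congr 1
  funext i
  fin_cases i <;> rfl

theorem pb_nondeg {σ : Form V X 2} (hσ : ∀ (x : X) (v : TangentSpace 𝓘(ℝ, V) x),
      (∀ w, σ x ![v, w] = 0) → v = 0) (x₀ : X) {p : V} (hp : p ∈ (chartAt V x₀).target) (v : V)
    (hv : ∀ w, pb (chartAt V x₀).symm σ p ![v, w] = 0) : v = 0 := by
  have h1 : mfderiv 𝓘(ℝ, V) 𝓘(ℝ, V) (chartAt V x₀).symm p v = 0 := by
    refine hσ _ _ fun w => ?_
    have h2 := (pb_val x₀ p σ v (mfderiv 𝓘(ℝ, V) 𝓘(ℝ, V) (chartAt V x₀)
      ((chartAt V x₀).symm p) w)).symm.trans (hv _)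
    have h3 := symm_comp x₀ hp w
    have h4 : (![mfderiv 𝓘(ℝ, V) 𝓘(ℝ, V) (chartAt V x₀).symm p v,
        mfderiv 𝓘(ℝ, V) 𝓘(ℝ, V) (chartAt V x₀).symm p
          (mfderiv 𝓘(ℝ, V) 𝓘(ℝ, V) (chartAt V x₀) ((chartAt V x₀).symm p) w)] :
        Fin 2 → TangentSpace 𝓘(ℝ, V) ((chartAt V x₀).symm p)) =
        ![mfderiv 𝓘(ℝ, V) 𝓘(ℝ, V) (chartAt V x₀).symm p v, w] := by
      rw [h3]
    exact (congrArg (σ ((chartAt V x₀).symm p)) h4).symm.trans h2
  have h5 := comp_symm x₀ hp v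
  rw [h1] at h5
  exact h5.symm.trans ((mfderiv 𝓘(ℝ, V) 𝓘(ℝ, V) (chartAt V x₀) ((chartAt V x₀).symm p)).map_zero)

/-- the polar part in a chart -/
theorem polar_chart {F : X → W} {σ : Form V X 2} {J : End V X} (x₀ : X) {p : V}
    (hp : p ∈ (chartAt V x₀).target)
    (h : IsPolar (V := V) (dF (V := V) F ((chartAt V x₀).symm p)) (σ ((chartAt V x₀).symm p))
      (J ((chartAt V x₀).symm p))) :
    IsPolar (dFc (V := V) F x₀ p) (pb (chartAt V x₀).symm σ p) (inL J x₀ p) := by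
  have key : ∀ v, mfderiv 𝓘(ℝ, V) 𝓘(ℝ, V) (chartAt V x₀).symm p (inL J x₀ p v) =
      J ((chartAt V x₀).symm p) (mfderiv 𝓘(ℝ, V) 𝓘(ℝ, V) (chartAt V x₀).symm p v) := fun v =>
    symm_comp x₀ hp (J ((chartAt V x₀).symm p)
      (mfderiv 𝓘(ℝ, V) 𝓘(ℝ, V) (chartAt V x₀).symm p v))
  refine ⟨fun v => ?_, fun u v => ?_, fun u v => ?_, fun v => ?_⟩
  · change mfderiv 𝓘(ℝ, V) 𝓘(ℝ, V) (chartAt V x₀) ((chartAt V x₀).symm p)
      (J ((chartAt V x₀).symm p) (mfderiv 𝓘(ℝ, V) 𝓘(ℝ, V) (chartAt V x₀).symm p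
        (inL J x₀ p v))) = -v
    rw [key]
    have h1 : J ((chartAt V x₀).symm p) (J ((chartAt V x₀).symm p)
        (mfderiv 𝓘(ℝ, V) 𝓘(ℝ, V) (chartAt V x₀).symm p v)) =
        -(mfderiv 𝓘(ℝ, V) 𝓘(ℝ, V) (chartAt V x₀).symm p v) := h.sq _
    rw [h1, map_neg]
    exact congrArg Neg.neg (comp_symm x₀ hp v)
  · change ⟪dF (V := V) F ((chartAt V x₀).symm p) (mfderiv 𝓘(ℝ, V) 𝓘(ℝ, V) (chartAt V x₀).symm p
        (inL J x₀ p u)), dF (V := V) F ((chartAt V x₀).symm p)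
        (mfderiv 𝓘(ℝ, V) 𝓘(ℝ, V) (chartAt V x₀).symm p (inL J x₀ p v))⟫_ℝ = _
    rw [key, key]
    exact h.iso _ _
  · rw [pb_val, pb_val, key, key]
    exact h.pres _ _
  · rw [pb_val, key]
    exact h.nn _

end

section

open Pool.Agent.Y501.SYP
open Pool.Agent.Q235.SZ (SForm InClass SympClass joint)

variable {d : ℕ} {X : Type} [TopologicalSpace X] [ChartedSpace (ES d) X]
  [IsManifold 𝓘(ℝ, ES d) ∞ X]

/-- families of symplectic forms tame continuous families of almost complex structures -/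
theorem realize [CompactSpace X] [T2Space X] {τ : SForm (ES d) X} {B : Type} [TopologicalSpace B]
    (f : C(B, SympClass τ)) : ∃ J : B → End (ES d) X, ContJ J ∧ (∀ b, IsAlmostComplex (J b)) ∧
      (∀ b x, TamesAt (f b).1.1 (J b) x) ∧
      ∀ b x u v, (f b).1.1 x ![J b x u, J b x v] = (f b).1.1 x ![u, v] := by
  have hfd := fd (d := d)
  have hpr : ProperSpace (ES d) := FiniteDimensional.proper ℝ (ES d)
  obtain ⟨n, F, hF, -, hinj⟩ := exists_embedding_euclidean_of_compact (I := 𝓘(ℝ, ES d))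
    (M := X)
  have hex : ∀ (b : B) (x : X), ∃ J : ES d →L[ℝ] ES d,
      IsPolar (dF (V := ES d) F x) ((f b).1.1 x) J ∧
        ∀ v ≠ 0, 0 < (((f b).1.1 x) : ES d [⋀^Fin 2]→L[ℝ] ℝ) ![v, J v] := fun b x =>
    polar_exists (V := ES d) (dF (V := ES d) F x) (hinj x) ((f b).1.1 x) ((f b).2.2 x)
  choose J hJ hJp using hex
  have hcont : ∀ x₀ : X, ContinuousOn (fun q : B × ES d => inL (V := ES d) (X := X) (J q.1) x₀ q.2)
      (univ ×ˢ (chartAt (ES d) x₀).target) := by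
    intro x₀ q₀ hq₀
    have hopen : IsOpen ((univ : Set B) ×ˢ (chartAt (ES d) x₀).target) :=
      isOpen_univ.prod (chartAt (ES d) x₀).open_target
    refine ContinuousAt.continuousWithinAt ?_
    refine polar_cont (D := fun q : B × ES d => dFc (V := ES d) F x₀ q.2)
      (s := fun q : B × ES d => pb (chartAt (ES d) x₀).symm (f q.1).1.1 q.2) ?_ ?_ ?_
      (dFc_inj hinj x₀ hq₀.2) (pb_nondeg (f q₀.1).2.2 x₀ hq₀.2)
    · exact ContinuousAt.comp (g := dFc (V := ES d) F x₀) (f := fun q : B × ES d => q.2)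
        ((dFc_cont hF x₀).continuousAt ((chartAt (ES d) x₀).open_target.mem_nhds hq₀.2))
        continuousAt_snd
    · have hf : Continuous fun b => (f b).1 := continuous_subtype_val.comp f.continuous
      exact (joint hf x₀).continuousAt (hopen.mem_nhds hq₀)
    · filter_upwards [hopen.mem_nhds hq₀] with q hq
      exact polar_chart x₀ hq.2 (hJ q.1 _)
  refine ⟨J, fun x₀ v => ?_, fun b => ⟨fun x v => (hJ b x).sq v, fun x₀ v => ?_⟩,
    fun b x v hv => hJp b x v hv, fun b x u v => (hJ b x).pres u v⟩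
  · exact (hcont x₀).clm_apply continuousOn_const
  · have h1 : ContinuousOn (fun p : ES d => ((b, p) : B × ES d)) (chartAt (ES d) x₀).target := by
      fun_prop
    have h2 := ((hcont x₀).clm_apply (continuousOn_const (c := v))).comp h1
      (fun p hp => mk_mem_prod (mem_univ b) hp)
    exact h2

end

end Pool.Agent.Q235.TF
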