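import Pool.Agent.Q235.TF.Connect
import Pool.Agent.Q235.TF.Crit

/-!
Project TF: continuous maps to the space of almost complex structures.
-/

set_option autoImplicit false

open Set Filter Topology
open scoped Manifold ContDiff InnerProductSpace

noncomputable section

namespace Pool.Agent.Q235.TF

open Pool.Agent.Y501.SYP

section

variable {V : Type} [NormedAddCommGroup V] [NormedSpace ℝ V]
  {X : Type} [TopologicalSpace X] [ChartedSpace V X]

theorem contJ_of [LocallyCompactSpace V] {B : Type} [TopologicalSpace B] {J : B → AStr V X}
    (hJ : Continuous J) : ContJ fun b => (J b).1 := by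
  intro x₀ v
  have h0 : Continuous (coef (V := V) (X := X) x₀ v) :=
    continuous_iff_le_induced.2 ((iInf_le _ x₀).trans (iInf_le _ v))
  have h1 : Continuous fun b => coef x₀ v (J b) := h0.comp hJ
  have hlc : LocallyCompactSpace (chartAt V x₀).target :=
    (chartAt V x₀).open_target.locallyCompactSpace
  have h2 : Continuous fun q : B × (chartAt V x₀).target => coef x₀ v (J q.1) q.2 :=
    continuous_eval.comp ((h1.comp continuous_fst).prodMk continuous_snd)
  rw [continuousOn_iff_continuous_domRestrict]
  have h5 : Continuous fun q : ((univ : Set B) ×ˢ (chartAt V x₀).target : Set (B × V)) =>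
      ((q.1.1, ⟨q.1.2, q.2.2⟩) : B × (chartAt V x₀).target) := by
    exact (continuous_fst.comp continuous_subtype_val).prodMk
      ((continuous_snd.comp continuous_subtype_val).subtype_mk _)
  exact h2.comp h5

theorem continuous_of {B : Type} [TopologicalSpace B] {J : B → AStr V X}
    (hJ : ContJ fun b => (J b).1) : Continuous J := by
  refine continuous_iInf_rng.2 fun x₀ => continuous_iInf_rng.2 fun v =>
    continuous_induced_rng.2 ?_
  refine ContinuousMap.continuous_of_continuous_uncurry _ ?_
  have h1 := continuousOn_iff_continuous_domRestrict.1 (hJ x₀ v)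
  have h5 : Continuous fun q : B × (chartAt V x₀).target =>
      (⟨(q.1, (q.2 : V)), mk_mem_prod (mem_univ _) q.2.2⟩ :
        ((univ : Set B) ×ˢ (chartAt V x₀).target : Set (B × V))) :=
    (continuous_fst.prodMk (continuous_subtype_val.comp continuous_snd)).subtype_mk _
  exact h1.comp h5

end

end Pool.Agent.Q235.TF
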